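import Mathlib

/-! Schiffer's problem along one-parameter families of domains: definitions. -/

set_option autoImplicit false

open MeasureTheory Metric Set

namespace Q90.SF

/-- The overdetermined problem (S) in the plane `ℂ`: `-Δu = lam u` in `Ω`, `∂u/∂n = 0` on `∂Ω`,
`u = c` on `∂Ω` has a nontrivial weak solution `u` for some real constant `c`; `G` is the weak
gradient of `u`, and both boundary conditions are expressed by testing with functions that need not
vanish on `∂Ω`. -/
def Solvable (Ω : Set ℂ) (lam : ℝ) : Prop :=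
  ∃ (c : ℝ) (u : ℂ → ℝ) (G : ℂ → ℂ),
    MemLp u 2 (volume.restrict Ω) ∧ MemLp G 2 (volume.restrict Ω) ∧
    (∀ φ : ℂ → ℝ, ContDiff ℝ 1 φ → HasCompactSupport φ → ∀ v : ℂ,
      ∫ x in Ω, (u x - c) * (fderiv ℝ φ x v) = - ∫ x in Ω, inner ℝ (G x) v * φ x) ∧
    (∀ φ : ℂ → ℝ, ContDiff ℝ 1 φ → HasCompactSupport φ →
      ∫ x in Ω, fderiv ℝ φ x (G x) = lam * ∫ x in Ω, u x * φ x) ∧
    ¬ (u =ᵐ[volume.restrict Ω] 0)

/-- The Fourier transform of the indicator function of `D` at the frequency `ξ`. -/
noncomputable def ft (D : Set ℂ) (ξ : ℂ) : ℂ :=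
  ∫ x in D, Complex.exp (((inner ℝ ξ x : ℝ) : ℂ) * Complex.I)

/-- The Pompeiu property: the only continuous function whose integrals over all the images of `Ω`
under the rigid motions of the plane vanish is the zero function. -/
def Pompeiu (Ω : Set ℂ) : Prop :=
  ∀ φ : ℂ → ℝ, Continuous φ → (∀ σ : ℂ ≃ᵢ ℂ, ∫ x in σ '' Ω, φ x = 0) → φ = 0

/-- The image of `x` under the deformation with velocity field `X` at time `t`. -/
noncomputable def dfm (X : ℂ → ℂ) (t : ℝ) (x : ℂ) : ℂ := x + t • X x

/-- `X` is a Lipschitz vector field and `x ↦ x + t X x` is a bi-Lipschitz map of the plane onto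
itself for every `t` in the open interval `J`, which contains `0`. -/
structure LipDef (X : ℂ → ℂ) (J : Set ℝ) : Prop where
  lip : ∃ L : NNReal, LipschitzWith L X
  opn : IsOpen J
  conn : IsPreconnected J
  zero : (0 : ℝ) ∈ J
  surj : ∀ t ∈ J, Function.Surjective (dfm X t)
  anti : ∀ t ∈ J, ∃ c : ℝ, 0 < c ∧ ∀ x y, c * ‖x - y‖ ≤ ‖dfm X t x - dfm X t y‖

/-- The boundary of `Ω` has finite upper Minkowski content: the set of the points at distance less
than `ε` from the boundary has area at most `C ε`. -/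
def FinMink (Ω : Set ℂ) : Prop :=
  ∃ C : ℝ, ∀ ε : ℝ, 0 < ε → ε ≤ 1 → volume.real (thickening ε (frontier Ω)) ≤ C * ε

/-- The star-shaped domain with the radial function `R`: the points `r e^{iθ}` with
`0 ≤ r < R θ`. -/
def starDom (R : ℝ → ℝ) : Set ℂ := {z : ℂ | ‖z‖ < R z.arg}

end Q90.SF
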