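import Mathlib
import Pool.Agent.Q90.SF.Def

/-! Schiffer's problem along one-parameter families of domains: the steps of the proof
(project SF of helper90). -/

set_option autoImplicit false

open MeasureTheory Metric Set
open scoped Real

namespace Q90.SF

/-! ### the potential of a domain on which (S) is solvable -/

/-- `U` is the potential of `D` at the frequency `lam`: `U` vanishes off `D` and
`(lam - |ξ|²) Û(ξ) = (1_D)^(ξ)`, i.e. `(Δ + lam) U = 1_D` in the plane. -/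
structure Pot (D : Set ℂ) (lam : ℝ) (U : ℂ → ℝ) : Prop where
  l1 : Integrable U
  l2 : MemLp U 2
  supp : ∀ x, x ∉ D → U x = 0
  eq : ∀ ξ : ℂ, ((lam - ‖ξ‖ ^ 2 : ℝ) : ℂ) *
    ∫ x, Complex.exp (((inner ℝ ξ x : ℝ) : ℂ) * Complex.I) * (U x : ℂ) = ft D ξ

/-- JOB POT. -/
def S_pot : Prop := ∀ (Ω : Set ℂ) (lam : ℝ), Bornology.IsBounded Ω → MeasurableSet Ω → 0 < lam →
  Solvable Ω lam → ∃ U : ℂ → ℝ, Pot Ω lam U

/-- JOB FLAT: two domains with a potential at the same frequency and a small symmetric difference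
have almost the same area. -/
def S_flat : Prop := ∀ (lam ρ η : ℝ), 0 < lam → 0 < ρ → 0 < η → ∃ δ0 : ℝ, 0 < δ0 ∧
  ∀ (D D' : Set ℂ) (U U' : ℂ → ℝ), MeasurableSet D → MeasurableSet D' → D ⊆ ball 0 ρ →
    D' ⊆ ball 0 ρ → Pot D lam U → Pot D' lam U' → volume.real (symmDiff D' D) ≤ δ0 →
    |volume.real D' - volume.real D| ≤ η * volume.real (symmDiff D' D)

/-- The domain `ρ D`. -/
def scl (ρ : ℝ) (D : Set ℂ) : Set ℂ := {x : ℂ | ρ⁻¹ • x ∈ D}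

/-- JOB SCL. -/
def S_scl : Prop := ∀ (ρ lam : ℝ) (D : Set ℂ), 0 < ρ → MeasurableSet D →
  MeasurableSet (scl ρ D) ∧ volume.real (scl ρ D) = ρ ^ 2 * volume.real D ∧
  (∀ ξ : ℂ, ft (scl ρ D) ξ = ((ρ ^ 2 : ℝ) : ℂ) * ft D (ρ • ξ)) ∧
  ∀ U : ℂ → ℝ, Pot D lam U → ∃ U' : ℂ → ℝ, Pot (scl ρ D) (lam / ρ ^ 2) U'

/-! ### analytic families -/

/-- JOB ABS: a set of zeros of a sequence of analytic functions of two variables which is flat in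
the direction of the second variable and uncountable. -/
def S_abs : Prop := ∀ (J : Set ℝ) (S : Set (ℝ × ℝ)) (f : ℕ → ℝ × ℝ → ℂ), IsOpen J →
  IsPreconnected J → (∀ p ∈ S, p.1 ∈ J) →
  (∀ p ∈ S, ∀ η : ℝ, 0 < η → ∃ ε : ℝ, 0 < ε ∧ ∀ q ∈ S, |q.1 - p.1| < ε → |q.2 - p.2| < ε →
    |q.2 - p.2| ≤ η * |q.1 - p.1|) →
  (∀ k, AnalyticOnNhd ℝ (f k) (J ×ˢ univ)) → (∀ k, ∀ p ∈ S, f k p = 0) → ¬ S.Countable →
  ∃ p ∈ S, ∀ k, ∀ t ∈ J, f k (t, p.2) = 0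

/-- JOB ANA: analyticity of an exponential integral. -/
def S_ana : Prop := ∀ (Y : Type) [MeasurableSpace Y] (μ : Measure Y) [IsFiniteMeasure μ]
  (M a0 a1 a2 : ℝ) (p q w0 w1 w2 : Y → ℝ) (J : Set ℝ), Measurable p → Measurable q →
  Measurable w0 → Measurable w1 → Measurable w2 → (∀ y, |p y| ≤ M) → (∀ y, |q y| ≤ M) →
  (∀ y, |w0 y| ≤ M) → (∀ y, |w1 y| ≤ M) → (∀ y, |w2 y| ≤ M) →
  (∀ t ∈ J, 0 < a0 + a1 * t + a2 * t ^ 2) →
  AnalyticOnNhd ℝ (fun z : ℝ × ℝ =>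
    ∫ y, Complex.exp (((z.2 / √(a0 + a1 * z.1 + a2 * z.1 ^ 2) * (p y + z.1 * q y) : ℝ) : ℂ) *
      Complex.I) * ((w0 y + z.1 * w1 y + z.1 ^ 2 * w2 y : ℝ) : ℂ) ∂μ) (J ×ˢ univ)

/-- The family `Om t`, `t ∈ J`, depends on `t` in a Lipschitz way (in the sense of areas), together
with the effect of dilations. -/
structure Fam (J : Set ℝ) (Om : ℝ → Set ℂ) : Prop where
  meas : ∀ t ∈ J, MeasurableSet (Om t)
  pos : ∀ t ∈ J, 0 < volume.real (Om t)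
  close : ∀ t ∈ J, ∃ C ε : ℝ, 0 < ε ∧ ∀ t' ∈ J, |t' - t| < ε → ∀ ρ : ℝ, |ρ - 1| < ε →
    scl ρ (Om t') ⊆ ball 0 C ∧
    volume.real (symmDiff (scl ρ (Om t')) (Om t)) ≤ C * (|t' - t| + |ρ - 1|)

/-- The Fourier transforms of the members of the family are given by integrals that depend
analytically on `t`. -/
structure Par (J : Set ℝ) (Om : ℝ → Set ℂ) (Y : Type) [MeasurableSpace Y] (μ : Measure Y)
    (k0 k1 : Y → ℂ) (w0 w1 w2 : Y → ℝ) : Prop where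
  mk0 : Measurable k0
  mk1 : Measurable k1
  mw0 : Measurable w0
  mw1 : Measurable w1
  mw2 : Measurable w2
  bd : ∃ M : ℝ, ∀ y, ‖k0 y‖ ≤ M ∧ ‖k1 y‖ ≤ M ∧ |w0 y| ≤ M ∧ |w1 y| ≤ M ∧ |w2 y| ≤ M
  rep : ∀ t ∈ J, ∀ ξ : ℂ, ft (Om t) ξ =
    ∫ y, Complex.exp (((inner ℝ ξ (k0 y + t • k1 y) : ℝ) : ℂ) * Complex.I) *
      ((w0 y + t * w1 y + t ^ 2 * w2 y : ℝ) : ℂ) ∂μ

/-- The abstract zero-one law (helper90). -/
def S_zo : Prop := ∀ (J : Set ℝ) (Om : ℝ → Set ℂ) (Y : Type) [MeasurableSpace Y] (μ : Measure Y)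
  [IsFiniteMeasure μ] (k0 k1 : Y → ℂ) (w0 w1 w2 : Y → ℝ), IsOpen J → IsPreconnected J →
  Fam J Om → Par J Om Y μ k0 k1 w0 w1 w2 →
  ¬ {t : ℝ | t ∈ J ∧ ∃ lam : ℝ, 0 < lam ∧ Solvable (Om t) lam}.Countable →
  ∃ κ : ℝ, 0 < κ ∧ ∀ t ∈ J, ∀ ξ : ℂ, ‖ξ‖ ^ 2 * volume.real (Om t) = κ → ft (Om t) ξ = 0

/-- JOB POM: a zero circle of the Fourier transform makes the Pompeiu property fail. -/
def S_pom : Prop := ∀ (Ω : Set ℂ) (k : ℝ), MeasurableSet Ω → Bornology.IsBounded Ω → 0 < k →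
  (∀ ξ : ℂ, ‖ξ‖ = k → ft Ω ξ = 0) → ¬ Pompeiu Ω

/-! ### Lipschitz deformations -/

/-- JOB LCV: change of variables. -/
def S_lcv : Prop := ∀ (X : ℂ → ℂ) (J : Set ℝ), LipDef X J → ∃ (a b : ℂ → ℝ) (M : ℝ),
  Measurable a ∧ Measurable b ∧ (∀ x, |a x| ≤ M ∧ |b x| ≤ M) ∧
  ∀ t ∈ J, ∀ S : Set ℂ, MeasurableSet S → ∀ φ : ℂ → ℂ,
    ∫ x in dfm X t '' S, φ x = ∫ x in S, φ (dfm X t x) * ((1 + t * a x + t ^ 2 * b x : ℝ) : ℂ)

/-- JOB LCL. -/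
def S_lcl : Prop := S_lcv → ∀ (X : ℂ → ℂ) (J : Set ℝ) (Ω : Set ℂ), LipDef X J → IsOpen Ω →
  Bornology.IsBounded Ω → Ω.Nonempty → FinMink Ω → Fam J (fun t => dfm X t '' Ω)

/-! ### star-shaped domains -/

/-- JOB POL: polar coordinates. -/
def S_pol : Prop :=
  (∀ R : ℝ → ℝ, Continuous R → MeasurableSet (starDom R)) ∧
  (∀ R : ℝ → ℝ, Continuous R → (∀ θ, 0 ≤ R θ) → ∀ φ : ℂ → ℂ, Continuous φ →
    ∫ x in starDom R, φ x = ∫ θ in (-π)..π, ∫ r in (0 : ℝ)..R θ,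
      (r : ℂ) * φ (r * Complex.exp (θ * Complex.I))) ∧
  (∀ R : ℝ → ℝ, Continuous R → (∀ θ, 0 ≤ R θ) →
    volume.real (starDom R) = ∫ θ in (-π)..π, R θ ^ 2 / 2) ∧
  (∀ R R' : ℝ → ℝ, Continuous R → Continuous R' → (∀ θ, 0 ≤ R θ) → (∀ θ, 0 ≤ R' θ) →
    volume.real (symmDiff (starDom R) (starDom R')) = ∫ θ in (-π)..π, |R θ ^ 2 - R' θ ^ 2| / 2)

/-- JOB SFM. -/
def S_sfm : Prop := S_pol → ∀ (a b : ℝ → ℝ) (J : Set ℝ), Continuous a → Continuous b →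
  Function.Periodic a (2 * π) → Function.Periodic b (2 * π) → IsOpen J →
  (∀ t ∈ J, ∀ θ, 0 < a θ + t * b θ) → Fam J (fun t => starDom fun θ => a θ + t * b θ)

/-- JOB SPR. -/
def S_spr : Prop := S_pol → ∀ (a b : ℝ → ℝ) (J : Set ℝ), Continuous a → Continuous b →
  Function.Periodic a (2 * π) → Function.Periodic b (2 * π) →
  (∀ t ∈ J, ∀ θ, 0 < a θ + t * b θ) →
  ∃ (k0 k1 : ℝ × ℝ → ℂ) (w0 w1 w2 : ℝ × ℝ → ℝ), Par J (fun t => starDom fun θ => a θ + t * b θ)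
    (ℝ × ℝ) (volume.restrict (Ioo 0 1 ×ˢ Ioo (-π) π)) k0 k1 w0 w1 w2

/-- JOB CLS: limits of star-shaped domains with a potential have a potential. -/
def S_cls : Prop := S_pol → ∀ (R : ℕ → ℝ → ℝ) (R0 : ℝ → ℝ) (lam : ℕ → ℝ) (lam0 : ℝ),
  (∀ n, Continuous (R n)) → Continuous R0 → (∀ n, Function.Periodic (R n) (2 * π)) →
  Function.Periodic R0 (2 * π) → (∀ n θ, 0 < R n θ) → (∀ θ, 0 < R0 θ) →
  TendstoUniformly R R0 Filter.atTop → Filter.Tendsto lam Filter.atTop (nhds lam0) →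
  (∀ n, 0 < lam n) → 0 < lam0 → (∀ n, ∃ U : ℂ → ℝ, Pot (starDom (R n)) (lam n) U) →
  ∃ U : ℂ → ℝ, Pot (starDom R0) lam0 U

/-! ### convex domains -/

/-- JOB PAR: the parallel domains `K + s B` as a Lipschitz deformation of `K + B`. -/
def S_par : Prop := ∀ K : Set ℂ, Convex ℝ K → K.Nonempty → Bornology.IsBounded K →
  ∃ X : ℂ → ℂ, LipDef X (Ioi (-1)) ∧ ∀ s : ℝ, -1 < s →
    dfm X s '' thickening 1 K = thickening (1 + s) K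

/-- JOB MNK. -/
def S_mnk : Prop := ∀ K : Set ℂ, IsOpen K → Convex ℝ K → K.Nonempty → Bornology.IsBounded K →
  FinMink K

/-- The support function. -/
noncomputable def supf (K : Set ℂ) (θ : ℝ) : ℝ :=
  sSup ((fun x : ℂ => x.re * Real.cos θ + x.im * Real.sin θ) '' K)

/-- JOB SUP. -/
def S_sup : Prop := S_pol → ∀ K : Set ℂ, IsOpen K → Convex ℝ K → K.Nonempty → Bornology.IsBounded K →
  Continuous (supf K) ∧ Function.Periodic (supf K) (2 * π) ∧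
  (∃ C s0 : ℝ, 0 < s0 ∧ ∀ s : ℝ, 0 < s → s < s0 →
    thickening 1 (scl s K) ⊆ ball 0 C ∧
    volume.real (symmDiff (thickening 1 (scl s K)) (starDom fun θ => 1 + s * supf K θ)) ≤
      C * s ^ 2) ∧
  ∀ a b c : ℝ, (∀ θ, supf K θ = a + b * Real.cos θ + c * Real.sin θ) →
    ∃ (p : ℂ) (r : ℝ), 0 < r ∧ K = ball p r

/-! ### the linearization at a disc -/

/-- `∫ e^{i(mφ + k cos φ)} dφ` over a period -/
noncomputable def EE (m : ℕ) (k : ℝ) : ℂ :=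
  ∫ φ in (-π)..π, Complex.exp (((m * φ + k * Real.cos φ : ℝ) : ℂ) * Complex.I)

/-- `∫ i cos φ e^{i(mφ + k cos φ)} dφ` over a period, the derivative of `EE` -/
noncomputable def EE' (m : ℕ) (k : ℝ) : ℂ :=
  ∫ φ in (-π)..π, Complex.I * Real.cos φ *
    Complex.exp (((m * φ + k * Real.cos φ : ℝ) : ℂ) * Complex.I)

/-- JOB BES: Bourget's hypothesis in the form needed here. -/
def S_bes : Prop := ∀ k : ℝ, 0 < k → ft (ball 0 1) (k : ℂ) = 0 →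
  (∀ m : ℕ, 2 ≤ m → EE m k ≠ 0) ∧ EE 2 k + k * EE' 2 k ≠ 0

/-- JOB FOU: Fourier coefficients. -/
def S_fou : Prop := ∀ g : ℝ → ℝ, Continuous g → Function.Periodic g (2 * π) →
  (∀ m : ℕ, 2 ≤ m → ∫ φ in (-π)..π, (g φ : ℂ) * Complex.exp (-(m * φ : ℝ) * Complex.I) = 0) →
  ∃ a b c : ℝ, ∀ θ, g θ = a + b * Real.cos θ + c * Real.sin θ

/-- JOB LIN: the first order expansion at the unit disc. -/
def S_lin : Prop := S_pol → ∀ (g : ℝ → ℝ) (D : ℝ → Set ℂ) (κ C s0 : ℝ), Continuous g →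
  Function.Periodic g (2 * π) → 0 < κ → 0 < s0 →
  (∀ s : ℝ, 0 < s → s < s0 → MeasurableSet (D s) ∧ D s ⊆ ball 0 C ∧
    volume.real (symmDiff (D s) (starDom fun θ => 1 + s * g θ)) ≤ C * s ^ 2 ∧
    ∀ ξ : ℂ, ‖ξ‖ ^ 2 * volume.real (D s) = κ → ft (D s) ξ = 0) →
  ft (ball 0 1) ((√(κ / π) : ℝ) : ℂ) = 0 ∧
  ∀ m : ℕ, 1 ≤ m → (∫ φ in (-π)..π, (g φ : ℂ) * Complex.exp (-(m * φ : ℝ) * Complex.I)) *
    EE m √(κ / π) = 0

/-- JOB LIN2: the second order expansion at the unit disc. -/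
def S_lin2 : Prop := S_pol → ∀ (a b c κ s0 : ℝ), 0 < κ → 0 < s0 →
  (∀ s : ℝ, 0 < s → s < s0 → ∀ ξ : ℂ,
    ‖ξ‖ ^ 2 * volume.real (starDom fun θ => 1 + s * (a + b * Real.cos θ + c * Real.sin θ)) = κ →
    ft (starDom fun θ => 1 + s * (a + b * Real.cos θ + c * Real.sin θ)) ξ = 0) →
  (∫ φ in (-π)..π, ((a + b * Real.cos φ + c * Real.sin φ : ℝ) : ℂ) ^ 2 *
    Complex.exp (-(2 * φ : ℝ) * Complex.I)) *
    (EE 2 √(κ / π) + √(κ / π) * EE' 2 √(κ / π)) = 0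

end Q90.SF
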