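import Mathlib
import Pool.Agent.Q90.SF.Stm
import Pool.Agent.TH259.NS.Bes

/-! Integral representation of the Bessel functions. -/

set_option autoImplicit false

open MeasureTheory Metric Set Filter Topology
open scoped Real
open TH259.NS (J B bt)

namespace Q90.SF

/-- the terms of the double series -/
noncomputable def tm (m : ℕ) (k : ℝ) (p : ℕ × ℕ) (φ : ℝ) : ℂ :=
  ((Complex.I * k / 2) ^ p.1 / (p.1.factorial : ℂ)) *
    ((Complex.I * k / 2) ^ p.2 / (p.2.factorial : ℂ)) *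
    Complex.exp ((((m : ℤ) + p.1 - p.2 : ℤ) : ℂ) * (φ * Complex.I))

lemma tm_cont (m : ℕ) (k : ℝ) (p : ℕ × ℕ) : Continuous (tm m k p) := by
  unfold tm
  fun_prop

lemma norm_tm (m : ℕ) (k : ℝ) (p : ℕ × ℕ) (φ : ℝ) :
    ‖tm m k p φ‖ = ((|k| / 2) ^ p.1 / (p.1.factorial : ℝ)) * ((|k| / 2) ^ p.2 / (p.2.factorial : ℝ)) := by
  unfold tm
  have h : ‖Complex.exp ((((m : ℤ) + p.1 - p.2 : ℤ) : ℂ) * (φ * Complex.I))‖ = 1 := by
    have : (((m : ℤ) + p.1 - p.2 : ℤ) : ℂ) * (φ * Complex.I) =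
        (((((m : ℤ) + p.1 - p.2 : ℤ) : ℝ) * φ : ℝ) : ℂ) * Complex.I := by
      push_cast
      ring
    rw [this, Complex.norm_exp_ofReal_mul_I]
  rw [norm_mul, norm_mul, h, mul_one, norm_div, norm_div, norm_pow, norm_pow, norm_div, norm_mul,
    Complex.norm_I, one_mul, Complex.norm_real, Real.norm_eq_abs, Complex.norm_natCast,
    Complex.norm_natCast]
  simp

lemma summable_norm_tm (m : ℕ) (k : ℝ) (φ : ℝ) : Summable fun p => ‖tm m k p φ‖ := by
  simp_rw [norm_tm]
  have h := Real.summable_pow_div_factorial (|k| / 2)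
  exact h.mul_of_nonneg h (fun n => by positivity) (fun n => by positivity)

lemma exp_two (k φ : ℝ) (m : ℕ) : Complex.exp (((m * φ + k * Real.cos φ : ℝ) : ℂ) * Complex.I) =
    Complex.exp (m * (φ * Complex.I)) *
      (Complex.exp (Complex.I * k / 2 * Complex.exp (φ * Complex.I)) *
        Complex.exp (Complex.I * k / 2 * Complex.exp (-(φ * Complex.I)))) := by
  rw [← Complex.exp_add, ← Complex.exp_add]
  congr 1
  have h : Complex.cos φ = (Complex.exp (φ * Complex.I) + Complex.exp (-(φ * Complex.I))) / 2 := by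
    rw [Complex.cos, neg_mul]
  push_cast
  rw [h]
  ring

lemma tm_eq (m : ℕ) (k : ℝ) (p : ℕ × ℕ) (φ : ℝ) : tm m k p φ =
    Complex.exp (m * (φ * Complex.I)) *
      (((Complex.I * k / 2 * Complex.exp (φ * Complex.I)) ^ p.1 / (p.1.factorial : ℂ)) *
        ((Complex.I * k / 2 * Complex.exp (-(φ * Complex.I))) ^ p.2 / (p.2.factorial : ℂ))) := by
  have h2 : Complex.exp ((((m : ℤ) + p.1 - p.2 : ℤ) : ℂ) * (φ * Complex.I)) =
      Complex.exp (m * (φ * Complex.I)) * Complex.exp (φ * Complex.I) ^ p.1 *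
        Complex.exp (-(φ * Complex.I)) ^ p.2 := by
    rw [← Complex.exp_nat_mul, ← Complex.exp_nat_mul, ← Complex.exp_add, ← Complex.exp_add]
    congr 1
    push_cast
    ring
  unfold tm
  rw [h2, mul_pow, mul_pow]
  ring

lemma hasSum_exp_pow (z : ℂ) : HasSum (fun a : ℕ => z ^ a / (a.factorial : ℂ)) (Complex.exp z) := by
  have := NormedSpace.expSeries_div_hasSum_exp (𝔸 := ℂ) z
  rwa [← Complex.exp_eq_exp_ℂ] at this

lemma hasSum_tm (m : ℕ) (k : ℝ) (φ : ℝ) : HasSum (fun p => tm m k p φ)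
    (Complex.exp (((m * φ + k * Real.cos φ : ℝ) : ℂ) * Complex.I)) := by
  rw [exp_two]
  have hs : Summable fun p : ℕ × ℕ =>
      ((Complex.I * k / 2 * Complex.exp (φ * Complex.I)) ^ p.1 / (p.1.factorial : ℂ)) *
        ((Complex.I * k / 2 * Complex.exp (-(φ * Complex.I))) ^ p.2 / (p.2.factorial : ℂ)) := by
    refine Summable.of_norm ?_
    refine (summable_norm_tm 0 k φ).congr fun p => ?_
    rw [tm_eq, norm_mul]
    have : ‖Complex.exp (((0 : ℕ) : ℂ) * (φ * Complex.I))‖ = 1 := by simp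
    rw [this, one_mul]
  have h := HasSum.mul (hasSum_exp_pow (Complex.I * k / 2 * Complex.exp (φ * Complex.I)))
    (hasSum_exp_pow (Complex.I * k / 2 * Complex.exp (-(φ * Complex.I)))) hs
  have h2 := h.mul_left (Complex.exp (m * (φ * Complex.I)))
  refine h2.congr_fun fun p => ?_
  exact tm_eq m k p φ

end Q90.SF
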