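import Mathlib
import Pool.Agent.Q90.SF.Stm

/-! The abstract zero-one law: flatness of the normalized frequency along a family. -/

set_option autoImplicit false

open MeasureTheory Metric Set Filter Topology
open scoped Real

namespace Q90.SF

/-- the set of the parameters and normalized frequencies of the potentials -/
def SS (J : Set ℝ) (Om : ℝ → Set ℂ) : Set (ℝ × ℝ) :=
  {p | p.1 ∈ J ∧ 0 < p.2 ∧ ∃ U : ℂ → ℝ, Pot (Om p.1) (p.2 ^ 2 / volume.real (Om p.1)) U}

/-- the choice of the constants -/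
lemma exists_eps (r A C ε0 δ0 : ℝ) (hr : 0 < r) (hA : 0 < A) (hC : 1 ≤ C) (hε0 : 0 < ε0)
    (hδ0 : 0 < δ0) : ∃ ε : ℝ, 0 < ε ∧ ∀ y r' A' : ℝ, |y| < ε → |r' - r| < ε → |A' - A| ≤ C * |y| →
      A / 2 < A' ∧ 0 < r' ∧ |(r' / r) ^ 2 - 1| ≤ 1 ∧ |y| < ε0 ∧
      |(r' / r) ^ 2 - 1| + 4 * C * |y| / A < ε0 ∧
      C * (|y| + (|(r' / r) ^ 2 - 1| + 4 * C * |y| / A)) ≤ δ0 := by
  set B : ℝ := 3 / r + 4 * C / A + 1 with hB
  have hB1 : 1 ≤ B := by
    have h1 : 0 < 3 / r := by positivity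
    have h2 : 0 < 4 * C / A := by positivity
    linarith
  have hB0 : 0 < B := by linarith
  refine ⟨min (min (r / 3) (A / (2 * C))) (min (ε0 / B) (δ0 / (2 * C * B))), ?_, ?_⟩
  · have : 0 < r / 3 := by positivity
    have : 0 < A / (2 * C) := by positivity
    have : 0 < ε0 / B := by positivity
    have : 0 < δ0 / (2 * C * B) := by positivity
    simp only [lt_min_iff]
    refine ⟨⟨?_, ?_⟩, ?_, ?_⟩ <;> assumption
  · intro y r' A' hy hr' hA'
    simp only [lt_min_iff] at hy hr'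
    obtain ⟨⟨hy1, hy2⟩, hy3, hy4⟩ := hy
    obtain ⟨⟨hr1, hr2⟩, hr3, hr4⟩ := hr'
    have hC0 : 0 < C := by linarith
    have e1 : C * |y| < A / 2 := by
      rw [lt_div_iff₀ (by positivity)] at hy2
      linarith
    have hAA : A / 2 < A' := by
      have := (abs_le.1 hA').1
      linarith
    have hx : |(r' / r) ^ 2 - 1| ≤ 3 * |r' - r| / r := by
      have h1 : (r' / r) ^ 2 - 1 = (r' - r) * (r' + r) / r ^ 2 := by
        field_simp
        ring
      have h2 : |r' + r| ≤ 3 * r := by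
        have h3 := abs_le.1 hr1.le
        rw [abs_le]
        constructor <;> linarith
      rw [h1, abs_div, abs_mul, abs_of_pos (by positivity : 0 < r ^ 2), div_le_div_iff₀ (by positivity) hr]
      have h4 : 0 ≤ |r' - r| := abs_nonneg _
      nlinarith [mul_le_mul_of_nonneg_left h2 (mul_nonneg h4 hr.le)]
    set ε := min (min (r / 3) (A / (2 * C))) (min (ε0 / B) (δ0 / (2 * C * B))) with hε
    set m : ℝ := max |y| |r' - r| with hm
    have hm3 : m * B < ε0 := by
      rw [← lt_div_iff₀ hB0]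
      exact max_lt hy3 hr3
    have hm4 : m * (2 * C * B) < δ0 := by
      rw [← lt_div_iff₀ (by positivity)]
      exact max_lt hy4 hr4
    have hm1 : |y| ≤ m := le_max_left _ _
    have hm2 : |r' - r| ≤ m := le_max_right _ _
    have hm0 : 0 ≤ m := (abs_nonneg _).trans hm1
    have k1 : 3 * |r' - r| / r ≤ m * (3 / r) := by
      rw [mul_div_assoc', div_le_div_iff_of_pos_right hr]
      linarith
    have k2 : 4 * C * |y| / A ≤ m * (4 * C / A) := by
      rw [mul_div_assoc', div_le_div_iff_of_pos_right hA]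
      nlinarith
    have k3 : |(r' / r) ^ 2 - 1| + 4 * C * |y| / A ≤ m * (B - 1) := by
      have : m * (B - 1) = m * (3 / r) + m * (4 * C / A) := by rw [hB]; ring
      rw [this]
      linarith
    refine ⟨hAA, ?_, ?_, ?_, ?_, ?_⟩
    · have h3 := abs_le.1 hr1.le
      linarith
    · refine hx.trans ?_
      rw [div_le_one hr]
      linarith
    · have : m * 1 ≤ m * B := mul_le_mul_of_nonneg_left hB1 hm0
      linarith
    · have : m * (B - 1) ≤ m * B := mul_le_mul_of_nonneg_left (by linarith) hm0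
      linarith
    · have h5 : |y| + (|(r' / r) ^ 2 - 1| + 4 * C * |y| / A) ≤ m * B := by
        have : m * B = m * (B - 1) + m := by ring
        rw [this]
        linarith
      have h6 := mul_le_mul_of_nonneg_left h5 hC0.le
      have h7 : C * (m * B) ≤ m * (2 * C * B) := by
        have : 0 ≤ m * (C * B) := by positivity
        nlinarith
      linarith

lemma scl_one (D : Set ℂ) : scl 1 D = D := by
  ext x
  simp [scl]

lemma Fam.bdd {J : Set ℝ} {Om : ℝ → Set ℂ} (hF : Fam J Om) {t : ℝ} (ht : t ∈ J) :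
    Bornology.IsBounded (Om t) := by
  obtain ⟨C, ε, hε, h⟩ := hF.close t ht
  have h1 := (h t ht (by simpa using hε) 1 (by simpa using hε)).1
  rw [scl_one] at h1
  exact isBounded_ball.subset h1

lemma area_diff {D D' : Set ℂ} (hD : MeasurableSet D) (hD' : MeasurableSet D')
    (h : volume D ≠ ⊤) (h' : volume D' ≠ ⊤) :
    |volume.real D' - volume.real D| ≤ volume.real (symmDiff D' D) := by
  exact abs_measureReal_sub_le_measureReal_symmDiff' hD'.nullMeasurableSet hD.nullMeasurableSet h' h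

set_option maxHeartbeats 2000000 in
theorem flat_fam (hflat : S_flat) (hscl : S_scl) {J : Set ℝ} {Om : ℝ → Set ℂ} (hF : Fam J Om) :
    ∀ p ∈ SS J Om, ∀ η : ℝ, 0 < η → ∃ ε : ℝ, 0 < ε ∧ ∀ q ∈ SS J Om, |q.1 - p.1| < ε →
      |q.2 - p.2| < ε → |q.2 - p.2| ≤ η * |q.1 - p.1| := by
  rintro ⟨t, r⟩ ⟨htJ, hr, U, hU⟩ η hη
  simp only at htJ hr hU
  set A : ℝ := volume.real (Om t) with hAdef
  have hA : 0 < A := hF.pos t htJ
  obtain ⟨C0, ε0, hε0, hcl⟩ := hF.close t htJ
  set C : ℝ := max C0 1 with hCdef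
  have hC1 : 1 ≤ C := le_max_right _ _
  have hC0 : 0 < C := by linarith
  have hcl' : ∀ t' ∈ J, |t' - t| < ε0 → ∀ ρ : ℝ, |ρ - 1| < ε0 →
      scl ρ (Om t') ⊆ ball 0 C ∧
      volume.real (symmDiff (scl ρ (Om t')) (Om t)) ≤ C * (|t' - t| + |ρ - 1|) := by
    intro t' ht' h1 ρ h2
    obtain ⟨k1, k2⟩ := hcl t' ht' h1 ρ h2
    refine ⟨k1.trans (ball_subset_ball (le_max_left _ _)), k2.trans ?_⟩
    exact mul_le_mul_of_nonneg_right (le_max_left _ _) (by positivity)
  have hmt := hF.meas t htJ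
  have hfin : ∀ s ∈ J, volume (Om s) ≠ ⊤ := fun s hs => (hF.bdd hs).measure_lt_top.ne
  have hOt : Om t ⊆ ball 0 C := by
    have := (hcl' t htJ (by simpa using hε0) 1 (by simpa using hε0)).1
    rwa [scl_one] at this
  -- the small constant
  set η1 : ℝ := min (A / (2 * C)) (η * A / (2 * r * C * (1 + 4 * C / A))) with hη1
  have hη1pos : 0 < η1 := by
    rw [hη1, lt_min_iff]
    constructor <;> positivity
  have hlam : 0 < r ^ 2 / A := by positivity
  obtain ⟨δ0, hδ0, hfl⟩ := hflat (r ^ 2 / A) C η1 hlam hC0 hη1pos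
  obtain ⟨ε, hε, hch⟩ := exists_eps r A C ε0 δ0 hr hA hC1 hε0 hδ0
  refine ⟨min ε ε0, lt_min hε hε0, ?_⟩
  rintro ⟨t', r'⟩ ⟨htJ', hr', U', hU'⟩ hq1 hq2
  simp only at htJ' hr' hU' hq1 hq2 ⊢
  set A' : ℝ := volume.real (Om t') with hA'def
  have hA'pos : 0 < A' := hF.pos t' htJ'
  have hq1a : |t' - t| < ε := hq1.trans_le (min_le_left _ _)
  have hq1b : |t' - t| < ε0 := hq1.trans_le (min_le_right _ _)
  have hq2a : |r' - r| < ε := hq2.trans_le (min_le_left _ _)
  have hAd : |A' - A| ≤ C * |t' - t| := by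
    have h1 := (hcl' t' htJ' hq1b 1 (by simpa using hε0)).2
    rw [scl_one, sub_self, abs_zero, add_zero] at h1
    exact (area_diff hmt (hF.meas t' htJ') (hfin t htJ) (hfin t' htJ')).trans h1
  obtain ⟨c1, c2, c3, c4, c5, c6⟩ := hch (t' - t) r' A' hq1a hq2a hAd
  set x : ℝ := (r' / r) ^ 2 - 1 with hx
  set y : ℝ := |t' - t| with hy
  have hy0 : 0 ≤ y := abs_nonneg _
  set ρ : ℝ := (r' / r) * √(A / A') with hρ
  have hρpos : 0 < ρ := by positivity
  have hρ2 : ρ ^ 2 = (1 + x) * (A / A') := by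
    rw [hρ, mul_pow, Real.sq_sqrt (by positivity), hx]
    ring
  have hρ1 : |ρ - 1| ≤ |x| + 4 * C * y / A := by
    have h1 : |ρ - 1| ≤ |ρ ^ 2 - 1| := by
      have : ρ ^ 2 - 1 = (ρ - 1) * (ρ + 1) := by ring
      rw [this, abs_mul]
      refine le_mul_of_one_le_right (abs_nonneg _) ?_
      rw [abs_of_pos (by linarith)]
      linarith
    have h2 : ρ ^ 2 - 1 = x + (1 + x) * ((A - A') / A') := by
      rw [hρ2]
      field_simp
      ring
    have h3 : |(A - A') / A'| ≤ 2 * C * y / A := by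
      rw [abs_div, abs_of_pos hA'pos, abs_sub_comm, div_le_div_iff₀ hA'pos hA]
      have h5 : 0 ≤ C * y := by positivity
      nlinarith [abs_nonneg (A' - A)]
    have h4 : |1 + x| ≤ 2 := by
      have := abs_le.1 c3
      rw [abs_le]
      constructor <;> linarith
    refine h1.trans ?_
    rw [h2]
    refine (abs_add_le _ _).trans ?_
    rw [abs_mul]
    have h6 : |1 + x| * |(A - A') / A'| ≤ 2 * (2 * C * y / A) :=
      mul_le_mul h4 h3 (abs_nonneg _) (by norm_num)
    have h7 : 2 * (2 * C * y / A) = 4 * C * y / A := by ring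
    linarith
  have hρe : |ρ - 1| < ε0 := hρ1.trans_lt c5
  obtain ⟨d1, d2⟩ := hcl' t' htJ' hq1b ρ hρe
  obtain ⟨s1, s2, -, s4⟩ := hscl ρ (r' ^ 2 / A') (Om t') hρpos (hF.meas t' htJ')
  obtain ⟨U'', hU''⟩ := s4 U' hU'
  have hlam' : r' ^ 2 / A' / ρ ^ 2 = r ^ 2 / A := by
    rw [hρ2, hx]
    field_simp
    ring
  rw [hlam'] at hU''
  have hD : volume.real (symmDiff (scl ρ (Om t')) (Om t)) ≤ C * (y + (|x| + 4 * C * y / A)) :=
    d2.trans (mul_le_mul_of_nonneg_left (by linarith) hC0.le)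
  have hfin2 := hfl (Om t) (scl ρ (Om t')) U U'' hmt s1 hOt d1 hU hU'' (hD.trans c6)
  have hAr : volume.real (scl ρ (Om t')) - A = A * x := by
    rw [s2, hρ2, ← hA'def]
    field_simp
    ring
  rw [← hAdef, hAr, abs_mul, abs_of_pos hA] at hfin2
  have hη1a : η1 * C ≤ A / 2 := by
    have : η1 ≤ A / (2 * C) := min_le_left _ _
    rw [le_div_iff₀ (by positivity)] at this
    linarith
  have hη1b : η1 * (2 * r * C * (1 + 4 * C / A)) ≤ η * A := by
    have : η1 ≤ η * A / (2 * r * C * (1 + 4 * C / A)) := min_le_right _ _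
    rwa [le_div_iff₀ (by positivity)] at this
  have m1 : A * |x| ≤ η1 * (C * (y + (|x| + 4 * C * y / A))) :=
    hfin2.trans (mul_le_mul_of_nonneg_left hD hη1pos.le)
  have m2 : A / 2 * |x| ≤ η1 * C * (1 + 4 * C / A) * y := by
    have e1 : η1 * (C * (y + (|x| + 4 * C * y / A))) =
        η1 * C * (1 + 4 * C / A) * y + η1 * C * |x| := by ring
    rw [e1] at m1
    have := mul_le_mul_of_nonneg_right hη1a (abs_nonneg x)
    linarith
  have m3 : r * |x| ≤ η * y := by
    have e2 : η1 * (2 * r * C * (1 + 4 * C / A)) * y ≤ η * A * y :=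
      mul_le_mul_of_nonneg_right hη1b hy0
    have e3 : A * (r * |x|) ≤ A * (η * y) := by
      have := mul_le_mul_of_nonneg_left m2 (by positivity : 0 ≤ 2 * r)
      nlinarith
    exact le_of_mul_le_mul_left e3 hA
  have m4 : |r' - r| ≤ r * |x| := by
    have e4 : r' - r = r * (r' / r - 1) := by field_simp
    rw [e4, abs_mul, abs_of_pos hr]
    refine mul_le_mul_of_nonneg_left ?_ hr.le
    have e5 : x = (r' / r - 1) * (r' / r + 1) := by rw [hx]; ring
    rw [e5, abs_mul]
    refine le_mul_of_one_le_right (abs_nonneg _) ?_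
    have : 0 < r' / r := by positivity
    rw [abs_of_pos (by linarith)]
    linarith
  exact m4.trans m3

end Q90.SF
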