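import Mathlib
import Pool.Agent.Q90.SF.Zo1

/-! The abstract zero-one law. -/

set_option autoImplicit false

open MeasureTheory Metric Set Filter Topology
open scoped Real

namespace Q90.SF

lemma ft_zero_eq (D : Set ℂ) : ft D 0 = ((volume.real D : ℝ) : ℂ) := by
  unfold ft
  simp

lemma continuous_ft {D : Set ℂ} (hD : Bornology.IsBounded D) : Continuous (ft D) := by
  unfold ft
  have : IsFiniteMeasure (volume.restrict D) := ⟨by
    rw [Measure.restrict_apply_univ]; exact hD.measure_lt_top⟩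
  refine continuous_of_dominated (bound := fun _ => 1) ?_ ?_ (integrable_const _) ?_
  · intro ξ
    exact Continuous.aestronglyMeasurable (by fun_prop)
  · intro ξ
    refine Eventually.of_forall fun x => ?_
    rw [Complex.norm_exp_ofReal_mul_I]
  · exact Eventually.of_forall fun x => by fun_prop

/-- unit vectors -/
noncomputable def un (k : ℕ) : ℂ := Complex.exp ((TopologicalSpace.denseSeq ℝ k : ℝ) * Complex.I)

/-- a function that vanishes at the multiples `ρ un k` vanishes on the circle -/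
lemma zero_of_un {F : ℂ → ℂ} (hF : Continuous F) (ρ : ℝ) (h : ∀ k, F (ρ * un k) = 0) (ξ : ℂ)
    (hξ : ‖ξ‖ = ρ) : F ξ = 0 := by
  have h1 : ξ = (fun θ : ℝ => (ρ : ℂ) * Complex.exp (θ * Complex.I)) ξ.arg := by
    simp only []
    rw [← hξ]
    exact (Complex.norm_mul_exp_arg_mul_I ξ).symm
  have hc : Continuous fun θ : ℝ => F ((ρ : ℂ) * Complex.exp (θ * Complex.I)) := by fun_prop
  have h2 : (fun θ : ℝ => F ((ρ : ℂ) * Complex.exp (θ * Complex.I))) = fun _ => 0 := by
    refine Continuous.ext_on (TopologicalSpace.denseRange_denseSeq ℝ) hc continuous_const ?_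
    rintro _ ⟨k, rfl⟩
    exact h k
  rw [h1]
  exact congrFun h2 ξ.arg

/-- the zero-one law in terms of potentials -/
def S_zop : Prop := ∀ (J : Set ℝ) (Om : ℝ → Set ℂ) (Y : Type) [MeasurableSpace Y] (μ : Measure Y)
  [IsFiniteMeasure μ] (k0 k1 : Y → ℂ) (w0 w1 w2 : Y → ℝ), IsOpen J → IsPreconnected J →
  Fam J Om → Par J Om Y μ k0 k1 w0 w1 w2 →
  ¬ {t : ℝ | t ∈ J ∧ ∃ lam : ℝ, 0 < lam ∧ ∃ U : ℂ → ℝ, Pot (Om t) lam U}.Countable →
  ∃ κ : ℝ, 0 < κ ∧ ∀ t ∈ J, ∀ ξ : ℂ, ‖ξ‖ ^ 2 * volume.real (Om t) = κ → ft (Om t) ξ = 0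

theorem zop (hflat : S_flat) (hscl : S_scl) (habs : S_abs) (hana : S_ana) :
    S_zop := by
  intro J Om Y _ μ _ k0 k1 w0 w1 w2 hJo hJc hF hP hunc
  obtain ⟨M, hM⟩ := hP.bd
  have iw0 : Integrable w0 μ := by
    refine (integrable_const M).mono' hP.mw0.aestronglyMeasurable (Eventually.of_forall fun y => ?_)
    exact (hM y).2.2.1
  have iw1 : Integrable w1 μ := by
    refine (integrable_const M).mono' hP.mw1.aestronglyMeasurable (Eventually.of_forall fun y => ?_)
    exact (hM y).2.2.2.1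
  have iw2 : Integrable w2 μ := by
    refine (integrable_const M).mono' hP.mw2.aestronglyMeasurable (Eventually.of_forall fun y => ?_)
    exact (hM y).2.2.2.2
  set a0 := ∫ y, w0 y ∂μ with ha0
  set a1 := ∫ y, w1 y ∂μ with ha1
  set a2 := ∫ y, w2 y ∂μ with ha2
  have hA : ∀ t ∈ J, volume.real (Om t) = a0 + a1 * t + a2 * t ^ 2 := by
    intro t ht
    have h := hP.rep t ht 0
    rw [ft_zero_eq] at h
    simp only [inner_zero_left, Complex.ofReal_zero, zero_mul, Complex.exp_zero, one_mul] at h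
    rw [integral_complex_ofReal] at h
    have h2 := Complex.ofReal_injective h
    rw [h2, integral_add, integral_add, integral_const_mul, integral_const_mul]
    · ring
    · exact iw0
    · exact iw1.const_mul t
    · exact iw0.add (iw1.const_mul t)
    · exact iw2.const_mul _
  -- the functions
  set f : ℕ → ℝ × ℝ → ℂ := fun k z =>
    ∫ y, Complex.exp (((z.2 / √(a0 + a1 * z.1 + a2 * z.1 ^ 2) *
      (inner ℝ (un k) (k0 y) + z.1 * inner ℝ (un k) (k1 y)) : ℝ) : ℂ) *
      Complex.I) * ((w0 y + z.1 * w1 y + z.1 ^ 2 * w2 y : ℝ) : ℂ) ∂μ with hf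
  have hun : ∀ k, ‖un k‖ = 1 := fun k => Complex.norm_exp_ofReal_mul_I _
  have hfan : ∀ k, AnalyticOnNhd ℝ (f k) (J ×ˢ univ) := by
    intro k
    refine hana Y μ M a0 a1 a2 (fun y => inner ℝ (un k) (k0 y)) (fun y => inner ℝ (un k) (k1 y))
      w0 w1 w2 J ?_ ?_ hP.mw0 hP.mw1 hP.mw2 ?_ ?_ (fun y => (hM y).2.2.1)
      (fun y => (hM y).2.2.2.1) (fun y => (hM y).2.2.2.2) ?_
    · exact measurable_const.inner hP.mk0
    · exact measurable_const.inner hP.mk1
    · intro y
      refine (abs_real_inner_le_norm _ _).trans ?_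
      rw [hun, one_mul]
      exact (hM y).1
    · intro y
      refine (abs_real_inner_le_norm _ _).trans ?_
      rw [hun, one_mul]
      exact (hM y).2.1
    · intro t ht
      rw [← hA t ht]
      exact hF.pos t ht
  have hfft : ∀ k, ∀ t ∈ J, ∀ r : ℝ, f k (t, r) =
      ft (Om t) (((r / √(volume.real (Om t)) : ℝ) : ℂ) * un k) := by
    intro k t ht r
    rw [hP.rep t ht, hA t ht, hf]
    simp only []
    refine integral_congr_ae (Eventually.of_forall fun y => ?_)
    simp only []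
    congr 3
    rw [← Complex.real_smul, real_inner_smul_left, inner_add_right, real_inner_smul_right]
  have hzero : ∀ t ∈ J, ∀ (lam : ℝ) (U : ℂ → ℝ), Pot (Om t) lam U → ∀ ξ : ℂ, ‖ξ‖ ^ 2 = lam →
      ft (Om t) ξ = 0 := by
    intro t _ lam U hU ξ hξ
    rw [← hU.eq ξ, hξ, sub_self, Complex.ofReal_zero, zero_mul]
  have hnorm : ∀ (k : ℕ) (ρ : ℝ), 0 ≤ ρ → ‖(ρ : ℂ) * un k‖ = ρ := by
    intro k ρ hρ
    rw [norm_mul, hun, mul_one, Complex.norm_real, Real.norm_eq_abs, abs_of_nonneg hρ]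
  have hfS : ∀ k, ∀ p ∈ SS J Om, f k p = 0 := by
    rintro k ⟨t, r⟩ ⟨ht, hr, U, hU⟩
    simp only at ht hr hU
    have hpos := hF.pos t ht
    rw [hfft k t ht r]
    refine hzero t ht _ U hU _ ?_
    rw [hnorm k _ (by positivity), div_pow, Real.sq_sqrt hpos.le]
  have hSunc : ¬ (SS J Om).Countable := by
    intro hc
    apply hunc
    refine (hc.image Prod.fst).mono ?_
    rintro t ⟨ht, lam, hlam, U, hU⟩
    have hpos := hF.pos t ht
    refine ⟨(t, √(lam * volume.real (Om t))), ⟨ht, by positivity, U, ?_⟩, rfl⟩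
    simp only []
    rw [Real.sq_sqrt (by positivity), mul_div_assoc, div_self hpos.ne', mul_one]
    exact hU
  obtain ⟨⟨t0, r⟩, ⟨ht0, hr, U, hU⟩, hres⟩ := habs J (SS J Om) f hJo hJc (fun p hp => hp.1)
    (flat_fam hflat hscl hF) hfan hfS hSunc
  simp only at ht0 hr hU hres
  refine ⟨r ^ 2, by positivity, fun t ht ξ hξ => ?_⟩
  have hpos := hF.pos t ht
  refine zero_of_un (continuous_ft (hF.bdd ht)) (r / √(volume.real (Om t))) ?_ ξ ?_
  · intro k
    rw [← hfft k t ht r]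
    exact hres k t ht
  · have h1 : ‖ξ‖ = √(‖ξ‖ ^ 2) := (Real.sqrt_sq (norm_nonneg _)).symm
    have h2 : ‖ξ‖ ^ 2 = r ^ 2 / volume.real (Om t) := by
      rw [eq_div_iff hpos.ne', hξ]
    rw [h1, h2, Real.sqrt_div (by positivity), Real.sqrt_sq hr.le]

theorem zo_of_zop (hpot : S_pot) (hzop : S_zop) : S_zo := by
  intro J Om Y _ μ _ k0 k1 w0 w1 w2 hJo hJc hF hP hunc
  refine hzop J Om Y μ k0 k1 w0 w1 w2 hJo hJc hF hP fun hc => hunc (hc.mono ?_)
  rintro t ⟨ht, lam, hlam, hs⟩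
  exact ⟨ht, lam, hlam, hpot (Om t) lam (hF.bdd ht) (hF.meas t ht) hlam hs⟩

end Q90.SF
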