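import Mathlib
import Pool.Agent.Q90.SF.Zo2

/-! The zero-one law for Lipschitz deformations and the parallel domains of a convex domain. -/

set_option autoImplicit false

open MeasureTheory Metric Set Filter Topology
open scoped Real

namespace Q90.SF

lemma Fam.pom (hpom : S_pom) {J : Set ℝ} {Om : ℝ → Set ℂ} (hF : Fam J Om) {κ : ℝ} (hκ : 0 < κ)
    {t : ℝ} (ht : t ∈ J) (h : ∀ ξ : ℂ, ‖ξ‖ ^ 2 * volume.real (Om t) = κ → ft (Om t) ξ = 0) :
    ¬ Pompeiu (Om t) := by
  have hpos := hF.pos t ht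
  refine hpom (Om t) (√(κ / volume.real (Om t))) (hF.meas t ht) (hF.bdd ht) (by positivity) ?_
  intro ξ hξ
  apply h
  rw [hξ, Real.sq_sqrt (by positivity)]
  field_simp

theorem lip_law (hzo : S_zo) (hpom : S_pom) (hlcv : S_lcv) (hlcl : S_lcl) (X : ℂ → ℂ) (J : Set ℝ)
    (Ω : Set ℂ) (hX : LipDef X J) (ho : IsOpen Ω) (hb : Bornology.IsBounded Ω)
    (hne : Ω.Nonempty) (hM : FinMink Ω) :
    {t : ℝ | t ∈ J ∧ ∃ lam : ℝ, 0 < lam ∧ Solvable (dfm X t '' Ω) lam}.Countable ∨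
    ∃ κ : ℝ, 0 < κ ∧ ∀ t ∈ J, (∀ ξ : ℂ, ‖ξ‖ ^ 2 * volume.real (dfm X t '' Ω) = κ →
      ft (dfm X t '' Ω) ξ = 0) ∧ ¬ Pompeiu (dfm X t '' Ω) := by
  by_cases hc : {t : ℝ | t ∈ J ∧ ∃ lam : ℝ, 0 < lam ∧ Solvable (dfm X t '' Ω) lam}.Countable
  · exact Or.inl hc
  right
  have hF : Fam J (fun t => dfm X t '' Ω) := hlcl hlcv X J Ω hX ho hb hne hM
  obtain ⟨a, b, M, hma, hmb, hab, hcv⟩ := hlcv X J hX
  obtain ⟨L, hL⟩ := hX.lip
  obtain ⟨R, hR⟩ := hb.exists_norm_le
  obtain ⟨x0, hx0⟩ := hne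
  have hXb : ∀ x ∈ Ω, ‖X x‖ ≤ ‖X x0‖ + L * (2 * R) := by
    intro x hx
    have h1 := hL.dist_le_mul x x0
    rw [dist_eq_norm, dist_eq_norm] at h1
    have h2 : ‖x - x0‖ ≤ 2 * R := (norm_sub_le _ _).trans (by linarith [hR x hx, hR x0 hx0])
    have h3 := mul_le_mul_of_nonneg_left h2 L.coe_nonneg
    have h4 : X x = (X x - X x0) + X x0 := by ring
    rw [h4]
    refine (norm_add_le _ _).trans ?_
    linarith
  have hR0 : 0 ≤ R := (norm_nonneg _).trans (hR x0 hx0)
  have hP : Par J (fun t => dfm X t '' Ω) ℂ (volume.restrict Ω) (Ω.indicator id) (Ω.indicator X)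
      (fun _ => 1) a b := by
    refine ⟨measurable_id.indicator ho.measurableSet, hL.continuous.measurable.indicator
      ho.measurableSet, measurable_const, hma, hmb, ?_, ?_⟩
    · refine ⟨max (max R (‖X x0‖ + L * (2 * R))) (max 1 M), fun y => ⟨?_, ?_, ?_, ?_, ?_⟩⟩
      · by_cases hy : y ∈ Ω
        · rw [indicator_of_mem hy]
          exact (hR y hy).trans ((le_max_left _ _).trans (le_max_left _ _))
        · rw [indicator_of_notMem hy, norm_zero]
          exact hR0.trans ((le_max_left _ _).trans (le_max_left _ _))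
      · by_cases hy : y ∈ Ω
        · rw [indicator_of_mem hy]
          exact (hXb y hy).trans ((le_max_right _ _).trans (le_max_left _ _))
        · rw [indicator_of_notMem hy, norm_zero]
          exact hR0.trans ((le_max_left _ _).trans (le_max_left _ _))
      · rw [abs_one]
        exact (le_max_left _ _).trans (le_max_right _ _)
      · exact (hab y).1.trans ((le_max_right _ _).trans (le_max_right _ _))
      · exact (hab y).2.trans ((le_max_right _ _).trans (le_max_right _ _))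
    · intro t ht ξ
      unfold ft
      rw [hcv t ht Ω ho.measurableSet]
      refine setIntegral_congr_fun ho.measurableSet fun x hx => ?_
      simp only [indicator_of_mem hx, id]
      rfl
  have : IsFiniteMeasure (volume.restrict Ω) := ⟨by
    rw [Measure.restrict_apply_univ]; exact hb.measure_lt_top⟩
  obtain ⟨κ, hκ, hκ2⟩ := hzo J _ ℂ (volume.restrict Ω) _ _ _ _ _ hX.opn hX.conn hF hP hc
  exact ⟨κ, hκ, fun t ht => ⟨hκ2 t ht, hF.pom hpom hκ ht (hκ2 t ht)⟩⟩

lemma scl_thickening {s : ℝ} (hs : 0 < s) (K : Set ℂ) :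
    scl s (thickening (1 / s) K) = thickening 1 (scl s K) := by
  ext x
  simp only [scl, Set.mem_ofPred_eq, mem_thickening_iff]
  constructor
  · rintro ⟨z, hz, hd⟩
    refine ⟨s • z, by rwa [smul_smul, inv_mul_cancel₀ hs.ne', one_smul], ?_⟩
    have h1 : x = s • (s⁻¹ • x) := by rw [smul_smul, mul_inv_cancel₀ hs.ne', one_smul]
    rw [h1, dist_smul₀, Real.norm_eq_abs, abs_of_pos hs]
    rw [lt_div_iff₀ hs] at hd
    linarith
  · rintro ⟨z, hz, hd⟩
    refine ⟨s⁻¹ • z, hz, ?_⟩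
    rw [dist_smul₀, Real.norm_eq_abs, abs_of_pos (by positivity), lt_div_iff₀ hs]
    field_simp
    exact hd

lemma pos_of_open {K : Set ℂ} (ho : IsOpen K) (hne : K.Nonempty) (hb : Bornology.IsBounded K) :
    0 < volume.real K :=
  ENNReal.toReal_pos (ho.measure_pos volume hne).ne' hb.measure_lt_top.ne

/-- from zeros on the circles for all the parallel domains to a disc -/
theorem disc_of_par (hscl : S_scl) (hpol : S_pol) (hsup : S_sup) (hbes : S_bes) (hfou : S_fou)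
    (hlin : S_lin) {K : Set ℂ} (ho : IsOpen K) (hc : Convex ℝ K) (hne : K.Nonempty)
    (hb : Bornology.IsBounded K) {κ : ℝ} (hκ : 0 < κ)
    (h : ∀ t : ℝ, 0 < t → ∀ ξ : ℂ, ‖ξ‖ ^ 2 * volume.real (thickening t K) = κ →
      ft (thickening t K) ξ = 0) : ∃ (p : ℂ) (r : ℝ), 0 < r ∧ K = ball p r := by
  obtain ⟨g1, g2, ⟨C, s0, hs0, g3⟩, g4⟩ := hsup hpol K ho hc hne hb
  have key := hlin hpol (supf K) (fun s => thickening 1 (scl s K)) κ C s0 g1 g2 hκ hs0 ?_
  · obtain ⟨k1, k2⟩ := key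
    have hk : 0 < √(κ / π) := by positivity
    obtain ⟨b1, -⟩ := hbes _ hk k1
    obtain ⟨a, b, c, habc⟩ := hfou (supf K) g1 g2 fun m hm =>
      (mul_eq_zero.1 (k2 m (by omega))).resolve_right (b1 m hm)
    exact g4 a b c habc
  · intro s hs hss
    obtain ⟨e1, e2⟩ := g3 s hs hss
    refine ⟨isOpen_thickening.measurableSet, e1, e2, fun ξ hξ => ?_⟩
    obtain ⟨-, f2, f3, -⟩ := hscl s 1 (thickening (1 / s) K) hs isOpen_thickening.measurableSet
    rw [scl_thickening hs K] at f2 f3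
    rw [f3, h (1 / s) (by positivity) (s • ξ) ?_, mul_zero]
    rw [f2] at hξ
    rw [norm_smul, mul_pow, Real.norm_eq_abs, sq_abs, ← hξ]
    ring

theorem par_law (hzo : S_zo) (hpom : S_pom) (hlcv : S_lcv) (hlcl : S_lcl) (hpar : S_par)
    (hmnk : S_mnk) (hscl : S_scl) (hpol : S_pol) (hsup : S_sup) (hbes : S_bes) (hfou : S_fou)
    (hlin : S_lin) (K : Set ℂ) (ho : IsOpen K) (hc : Convex ℝ K) (hne : K.Nonempty)
    (hb : Bornology.IsBounded K) (hK : ¬ ∃ (p : ℂ) (r : ℝ), 0 < r ∧ K = ball p r) :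
    {t : ℝ | 0 < t ∧ ∃ lam : ℝ, 0 < lam ∧ Solvable (thickening t K) lam}.Countable := by
  obtain ⟨X, hX, hXK⟩ := hpar K hc hne hb
  have ho1 : IsOpen (thickening 1 K) := isOpen_thickening
  have hb1 : Bornology.IsBounded (thickening 1 K) := hb.thickening
  have hne1 : (thickening 1 K).Nonempty := hne.mono (self_subset_thickening one_pos K)
  have hM := hmnk _ ho1 (hc.thickening 1) hne1 hb1
  rcases lip_law hzo hpom hlcv hlcl X (Ioi (-1)) (thickening 1 K) hX ho1 hb1 hne1 hM with h | h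
  · have h2 : {t : ℝ | 0 < t ∧ ∃ lam : ℝ, 0 < lam ∧ Solvable (thickening t K) lam} ⊆
        (fun s => 1 + s) '' {t : ℝ | t ∈ Ioi (-1) ∧ ∃ lam : ℝ, 0 < lam ∧
          Solvable (dfm X t '' thickening 1 K) lam} := by
      rintro t ⟨ht, lam, hlam, hs⟩
      refine ⟨t - 1, ⟨by simpa using ht, lam, hlam, ?_⟩, by simp⟩
      rw [hXK (t - 1) (by linarith)]
      have : 1 + (t - 1) = t := by ring
      rwa [this]
    exact (h.image _).mono h2
  · exfalso
    obtain ⟨κ, hκ, h1⟩ := h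
    apply hK
    refine disc_of_par hscl hpol hsup hbes hfou hlin ho hc hne hb hκ fun t ht ξ hξ => ?_
    have h2 := (h1 (t - 1) (by simpa using ht)).1 ξ
    rw [hXK (t - 1) (by linarith)] at h2
    have : 1 + (t - 1) = t := by ring
    rw [this] at h2
    exact h2 hξ

end Q90.SF
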