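import Mathlib
import Pool.Agent.Q90.SF.FinA

/-! The zero-one law for star-shaped domains and the domains with the radial function `R + t`. -/

set_option autoImplicit false

open MeasureTheory Metric Set Filter Topology
open scoped Real

namespace Q90.SF

instance fin_rect : IsFiniteMeasure (volume.restrict (Ioo (0 : ℝ) 1 ×ˢ Ioo (-π) π)) := ⟨by
  rw [Measure.restrict_apply_univ]
  have : Bornology.IsBounded (Ioo (0 : ℝ) 1 ×ˢ Ioo (-π) π) :=
    (isBounded_Ioo 0 1).prod (isBounded_Ioo (-π) π)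
  exact this.measure_lt_top⟩

/-- the set of the exceptional parameters, in terms of potentials -/
def Ex (J : Set ℝ) (Om : ℝ → Set ℂ) : Set ℝ :=
  {t : ℝ | t ∈ J ∧ ∃ lam : ℝ, 0 < lam ∧ ∃ U : ℂ → ℝ, Pot (Om t) lam U}

theorem star_law' (hzop : S_zop) (hpol : S_pol) (hsfm : S_sfm) (hspr : S_spr)
    (a b : ℝ → ℝ) (J : Set ℝ) (ha : Continuous a) (hb : Continuous b)
    (hap : Function.Periodic a (2 * π)) (hbp : Function.Periodic b (2 * π)) (hJo : IsOpen J)
    (hJc : IsPreconnected J) (hpos : ∀ t ∈ J, ∀ θ, 0 < a θ + t * b θ)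
    (hc : ¬ (Ex J fun t => starDom fun θ => a θ + t * b θ).Countable) :
    ∃ κ : ℝ, 0 < κ ∧ ∀ t ∈ J, ∀ ξ : ℂ,
      ‖ξ‖ ^ 2 * volume.real (starDom fun θ => a θ + t * b θ) = κ →
      ft (starDom fun θ => a θ + t * b θ) ξ = 0 := by
  have hF := hsfm hpol a b J ha hb hap hbp hJo hpos
  obtain ⟨k0, k1, w0, w1, w2, hP⟩ := hspr hpol a b J ha hb hap hbp hpos
  exact hzop J _ (ℝ × ℝ) _ k0 k1 w0 w1 w2 hJo hJc hF hP hc

theorem star_law (hzop : S_zop) (hpot : S_pot) (hpom : S_pom) (hpol : S_pol) (hsfm : S_sfm)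
    (hspr : S_spr) (a b : ℝ → ℝ) (J : Set ℝ) (ha : Continuous a) (hb : Continuous b)
    (hap : Function.Periodic a (2 * π)) (hbp : Function.Periodic b (2 * π)) (hJo : IsOpen J)
    (hJc : IsPreconnected J) (hpos : ∀ t ∈ J, ∀ θ, 0 < a θ + t * b θ) :
    {t : ℝ | t ∈ J ∧ ∃ lam : ℝ, 0 < lam ∧ Solvable (starDom fun θ => a θ + t * b θ) lam}.Countable ∨
    ∃ κ : ℝ, 0 < κ ∧ ∀ t ∈ J, (∀ ξ : ℂ,
      ‖ξ‖ ^ 2 * volume.real (starDom fun θ => a θ + t * b θ) = κ →
      ft (starDom fun θ => a θ + t * b θ) ξ = 0) ∧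
      ¬ Pompeiu (starDom fun θ => a θ + t * b θ) := by
  have hF := hsfm hpol a b J ha hb hap hbp hJo hpos
  by_cases hc : (Ex J fun t => starDom fun θ => a θ + t * b θ).Countable
  · left
    refine hc.mono ?_
    rintro t ⟨ht, lam, hlam, hs⟩
    exact ⟨ht, lam, hlam, hpot _ lam (hF.bdd ht) (hF.meas t ht) hlam hs⟩
  · right
    obtain ⟨κ, hκ, h⟩ := star_law' hzop hpol hsfm hspr a b J ha hb hap hbp hJo hJc hpos hc
    exact ⟨κ, hκ, fun t ht => ⟨h t ht, hF.pom hpom hκ ht (h t ht)⟩⟩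

/-! ### the second order condition -/

lemma int_exp_ne (k : ℤ) (hk : k ≠ 0) :
    ∫ φ in (-π)..π, Complex.exp ((k : ℂ) * (φ * Complex.I)) = 0 := by
  have hc : ((k : ℂ) * Complex.I) ≠ 0 := mul_ne_zero (by exact_mod_cast hk) Complex.I_ne_zero
  have h := integral_exp_mul_complex (a := -π) (b := π) hc
  have e : ∀ φ : ℝ, Complex.exp ((k : ℂ) * (φ * Complex.I)) =
      Complex.exp ((k : ℂ) * Complex.I * φ) := by
    intro φ
    congr 1
    ring
  simp_rw [e]
  rw [h]
  have e2 : Complex.exp ((k : ℂ) * Complex.I * (π : ℝ)) =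
      Complex.exp ((k : ℂ) * Complex.I * ((-π : ℝ) : ℂ)) := by
    have : (k : ℂ) * Complex.I * (π : ℝ) =
        (k : ℂ) * Complex.I * ((-π : ℝ) : ℂ) + k * (2 * π * Complex.I) := by
      push_cast
      ring
    rw [this, Complex.exp_add, Complex.exp_int_mul_two_pi_mul_I, mul_one]
  rw [e2, sub_self, zero_div]

lemma mode_two (a b c : ℝ) :
    ∫ φ in (-π)..π, ((a + b * Real.cos φ + c * Real.sin φ : ℝ) : ℂ) ^ 2 *
      Complex.exp (-(2 * φ : ℝ) * Complex.I) = 2 * π * ((b - c * Complex.I) / 2) ^ 2 := by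
  set z : ℂ := (b - c * Complex.I) / 2 with hz
  set w : ℂ := (b + c * Complex.I) / 2 with hw
  have e : ∀ φ : ℝ, ((a + b * Real.cos φ + c * Real.sin φ : ℝ) : ℂ) ^ 2 *
      Complex.exp (-(2 * φ : ℝ) * Complex.I) = z ^ 2 +
      (2 * a * z) * Complex.exp (((-1 : ℤ) : ℂ) * (φ * Complex.I)) +
      (a ^ 2 + 2 * z * w) * Complex.exp (((-2 : ℤ) : ℂ) * (φ * Complex.I)) +
      (2 * a * w) * Complex.exp (((-3 : ℤ) : ℂ) * (φ * Complex.I)) +
      w ^ 2 * Complex.exp (((-4 : ℤ) : ℂ) * (φ * Complex.I)) := by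
    intro φ
    set u : ℂ := Complex.exp (φ * Complex.I) with hu
    have hu0 : u ≠ 0 := Complex.exp_ne_zero _
    have h1 : Complex.exp (-(φ * Complex.I)) = u⁻¹ := Complex.exp_neg _
    have hc1 : ((Real.cos φ : ℝ) : ℂ) = (u + u⁻¹) / 2 := by
      rw [Complex.ofReal_cos, Complex.cos, ← h1, hu]
      congr 3
      ring
    have hs1 : ((Real.sin φ : ℝ) : ℂ) = (u⁻¹ - u) * Complex.I / 2 := by
      rw [Complex.ofReal_sin, Complex.sin, ← h1, hu]
      congr 4
      ring
    have e1 : ∀ n : ℕ, Complex.exp (((-(n : ℤ) : ℤ) : ℂ) * (φ * Complex.I)) = (u⁻¹) ^ n := by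
      intro n
      rw [← h1, ← Complex.exp_nat_mul]
      congr 1
      push_cast
      ring
    have g1 := e1 1
    have g2 := e1 2
    have g3 := e1 3
    have g4 := e1 4
    simp only [Nat.cast_one, Nat.cast_ofNat] at g1 g2 g3 g4
    have g0 : Complex.exp (-(2 * φ : ℝ) * Complex.I) = (u⁻¹) ^ 2 := by
      rw [← g2]
      congr 1
      push_cast
      ring
    rw [g0, g1, g2, g3, g4]
    have k1 : ((a + b * Real.cos φ + c * Real.sin φ : ℝ) : ℂ) = a + z * u + w * u⁻¹ := by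
      push_cast
      rw [← Complex.ofReal_cos, ← Complex.ofReal_sin, hc1, hs1, hz, hw]
      ring
    have k2 : (a + z * u + w * u⁻¹) * u⁻¹ = a * u⁻¹ + z + w * (u⁻¹) ^ 2 := by
      field_simp
    rw [k1, ← mul_pow, k2]
    ring
  simp_rw [e]
  have hint : ∀ (A : ℂ) (k : ℤ), IntervalIntegrable
      (fun φ : ℝ => A * Complex.exp ((k : ℂ) * (φ * Complex.I))) volume (-π) π := by
    intro A k
    exact Continuous.intervalIntegrable (by fun_prop) _ _
  have hint0 : IntervalIntegrable (fun _ : ℝ => z ^ 2) volume (-π) π :=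
    continuous_const.intervalIntegrable _ _
  rw [intervalIntegral.integral_add (((hint0.add (hint _ _)).add (hint _ _)).add (hint _ _))
      (hint _ _), intervalIntegral.integral_add ((hint0.add (hint _ _)).add (hint _ _)) (hint _ _),
    intervalIntegral.integral_add (hint0.add (hint _ _)) (hint _ _),
    intervalIntegral.integral_add hint0 (hint _ _)]
  rw [intervalIntegral.integral_const_mul, intervalIntegral.integral_const_mul,
    intervalIntegral.integral_const_mul, intervalIntegral.integral_const_mul,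
    int_exp_ne _ (by norm_num), int_exp_ne _ (by norm_num), int_exp_ne _ (by norm_num),
    int_exp_ne _ (by norm_num), intervalIntegral.integral_const]
  simp only [mul_zero, add_zero, Complex.real_smul]
  push_cast
  ring

end Q90.SF
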