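import Mathlib
import Pool.Agent.Q90.SF.Bes1
import Pool.Agent.Q90.SF.FinB

/-! Integral representation of the Bessel functions. -/

set_option autoImplicit false

open MeasureTheory Metric Set Filter Topology
open scoped Real
open TH259.NS (J B bt)

namespace Q90.SF

lemma hasSum_EE (m : ℕ) (k : ℝ) : HasSum (fun p => ∫ φ in (-π)..π, tm m k p φ) (EE m k) := by
  have hle : -π ≤ π := by linarith [Real.pi_pos]
  have h1 : ∀ p, ∫ φ in (-π)..π, tm m k p φ = ∫ φ in Ioc (-π) π, tm m k p φ := fun p =>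
    intervalIntegral.integral_of_le hle
  unfold EE
  simp_rw [h1]
  rw [intervalIntegral.integral_of_le hle]
  have hi : ∀ p, Integrable (tm m k p) (volume.restrict (Ioc (-π) π)) := fun p =>
    ((tm_cont m k p).integrableOn_Icc (a := -π) (b := π)).mono_set Ioc_subset_Icc_self
  have hs : Summable fun p : ℕ × ℕ => ∫ φ in Ioc (-π) π, ‖tm m k p φ‖ := by
    have e : ∀ p : ℕ × ℕ, ∫ φ in Ioc (-π) π, ‖tm m k p φ‖ = 2 * π * ‖tm m k p 0‖ := by
      intro p
      simp_rw [norm_tm]
      rw [setIntegral_const, smul_eq_mul, Real.volume_real_Ioc_of_le hle]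
      ring
    simp_rw [e]
    exact (summable_norm_tm m k 0).mul_left _
  have h2 := hasSum_integral_of_summable_integral_norm hi hs
  have h3 : ∫ φ in Ioc (-π) π, ∑' p, tm m k p φ =
      ∫ φ in Ioc (-π) π, Complex.exp (((m * φ + k * Real.cos φ : ℝ) : ℂ) * Complex.I) := by
    refine integral_congr_ae (Eventually.of_forall fun φ => ?_)
    exact (hasSum_tm m k φ).tsum_eq
  rw [h3] at h2
  exact h2

lemma int_tm (m : ℕ) (k : ℝ) (p : ℕ × ℕ) : ∫ φ in (-π)..π, tm m k p φ =
    ((Complex.I * k / 2) ^ p.1 / (p.1.factorial : ℂ)) *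
    ((Complex.I * k / 2) ^ p.2 / (p.2.factorial : ℂ)) *
    (if p.2 = p.1 + m then 2 * π else 0) := by
  unfold tm
  rw [intervalIntegral.integral_const_mul]
  congr 1
  split_ifs with h
  · have : ((m : ℤ) + p.1 - p.2 : ℤ) = 0 := by rw [h]; push_cast; ring
    rw [this]
    simp only [Int.cast_zero, zero_mul, Complex.exp_zero, intervalIntegral.integral_const,
      sub_neg_eq_add]
    rw [Complex.real_smul]
    push_cast
    ring
  · refine int_exp_ne _ ?_
    intro h2
    apply h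
    omega

lemma EE_eq (m : ℕ) (k : ℝ) : EE m k = 2 * π * Complex.I ^ m * (J m k : ℂ) := by
  have hinj : Function.Injective fun a : ℕ => (a, a + m) := by
    intro a b hab
    exact (Prod.mk.inj hab).1
  have h1 := hasSum_EE m k
  have h2 := (hinj.hasSum_iff (f := fun p => ∫ φ in (-π)..π, tm m k p φ) (a := EE m k) ?_).2 h1
  · have h3 : HasSum (fun a : ℕ => (2 * π * Complex.I ^ m * (k / 2 : ℂ) ^ m) *
        ((bt m a (k ^ 2 / 4) : ℝ) : ℂ)) (2 * π * Complex.I ^ m * (k / 2 : ℂ) ^ m *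
        ((B m (k ^ 2 / 4) : ℝ) : ℂ)) := by
      refine HasSum.mul_left _ ?_
      exact Complex.hasSum_ofReal.2 (TH259.NS.bt_summable m (k ^ 2 / 4)).hasSum
    have h4 : (fun a : ℕ => (2 * π * Complex.I ^ m * (k / 2 : ℂ) ^ m) *
        ((bt m a (k ^ 2 / 4) : ℝ) : ℂ)) =
        (fun p => ∫ φ in (-π)..π, tm m k p φ) ∘ fun a : ℕ => (a, a + m) := by
      ext a
      simp only [Function.comp, int_tm, if_true]
      unfold bt
      push_cast
      have e1 : (Complex.I * k / 2) ^ a * (Complex.I * k / 2) ^ (a + m) =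
          Complex.I ^ m * (k / 2 : ℂ) ^ m * ((-1) ^ a * ((k : ℂ) ^ 2 / 4) ^ a) := by
        rw [pow_add, ← mul_assoc, ← mul_pow, ← mul_pow]
        have : (Complex.I * k / 2) * (Complex.I * k / 2) = (-1) * ((k : ℂ) ^ 2 / 4) := by
          have hI : Complex.I * Complex.I = -1 := Complex.I_mul_I
          linear_combination ((k : ℂ) ^ 2 / 4) * hI
        rw [this, mul_pow (-1 : ℂ), mul_div_assoc, mul_pow Complex.I]
        ring
      rw [div_mul_div_comm, e1]
      ring
    rw [h4] at h3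
    rw [h2.unique h3, TH259.NS.J_eq]
    push_cast
    ring
  · rintro ⟨a, b⟩ hab
    simp only [int_tm]
    rw [if_neg, Complex.ofReal_zero, mul_zero]
    rintro rfl
    exact hab ⟨a, rfl⟩


lemma EE'_two (k : ℝ) : EE' 2 k = Complex.I / 2 * (EE 3 k + EE 1 k) := by
  unfold EE' EE
  rw [← intervalIntegral.integral_add (Continuous.intervalIntegrable (by fun_prop) _ _)
    (Continuous.intervalIntegrable (by fun_prop) _ _), ← intervalIntegral.integral_const_mul]
  refine intervalIntegral.integral_congr fun φ _ => ?_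
  have h3 : Complex.exp (((((3 : ℕ) : ℝ) * φ + k * Real.cos φ : ℝ) : ℂ) * Complex.I) =
      Complex.exp (φ * Complex.I) *
        Complex.exp (((((2 : ℕ) : ℝ) * φ + k * Real.cos φ : ℝ) : ℂ) * Complex.I) := by
    rw [← Complex.exp_add]
    congr 1
    push_cast
    ring
  have h1 : Complex.exp (((((1 : ℕ) : ℝ) * φ + k * Real.cos φ : ℝ) : ℂ) * Complex.I) =
      Complex.exp (-(φ * Complex.I)) *
        Complex.exp (((((2 : ℕ) : ℝ) * φ + k * Real.cos φ : ℝ) : ℂ) * Complex.I) := by
    rw [← Complex.exp_add]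
    congr 1
    push_cast
    ring
  have h : ((Real.cos φ : ℝ) : ℂ) =
      (Complex.exp (φ * Complex.I) + Complex.exp (-(φ * Complex.I))) / 2 := by
    rw [Complex.ofReal_cos, Complex.cos, neg_mul]
  rw [h3, h1, h]
  ring

lemma ft_disc (hpol : S_pol) (k : ℝ) : ft (ball 0 1) (k : ℂ) = π * (B 1 (k ^ 2 / 4) : ℂ) := by
  have e0 : ball (0 : ℂ) 1 = starDom fun _ => 1 := by
    ext x
    rw [mem_ball_zero_iff]
    rfl
  have hc : Continuous fun x : ℂ => Complex.exp (((inner ℝ (k : ℂ) x : ℝ) : ℂ) * Complex.I) := by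
    fun_prop
  unfold ft
  rw [e0, hpol.2.1 (fun _ => 1) continuous_const (fun _ => zero_le_one) _ hc]
  have e1 : ∀ θ r : ℝ, (r : ℂ) * Complex.exp (((inner ℝ (k : ℂ)
      (r * Complex.exp (θ * Complex.I)) : ℝ) : ℂ) * Complex.I) =
      (r : ℂ) * Complex.exp (((((0 : ℕ) : ℝ) * θ + (k * r) * Real.cos θ : ℝ) : ℂ) * Complex.I) := by
    intro θ r
    congr 4
    rw [Complex.inner]
    simp only [Complex.conj_ofReal, Complex.mul_re, Complex.ofReal_re, Complex.ofReal_im,
      Complex.exp_ofReal_mul_I_re, Complex.exp_ofReal_mul_I_im, Complex.mul_im]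
    push_cast
    ring
  simp_rw [e1]
  have hF : Continuous (Function.uncurry fun θ r : ℝ =>
      (r : ℂ) * Complex.exp (((((0 : ℕ) : ℝ) * θ + (k * r) * Real.cos θ : ℝ) : ℂ) * Complex.I)) := by
    unfold Function.uncurry
    fun_prop
  rw [intervalIntegral_intervalIntegral_swap]
  · have e2 : ∀ r : ℝ, ∫ θ in (-π)..π, (r : ℂ) *
        Complex.exp (((((0 : ℕ) : ℝ) * θ + (k * r) * Real.cos θ : ℝ) : ℂ) * Complex.I) =
        ((2 * π * r * B 0 (k ^ 2 * r ^ 2 / 4) : ℝ) : ℂ) := by
      intro r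
      rw [intervalIntegral.integral_const_mul]
      have := EE_eq 0 (k * r)
      unfold EE at this
      rw [this, TH259.NS.J_eq]
      push_cast
      ring
    simp_rw [e2]
    rw [intervalIntegral.integral_ofReal]
    have hd : ∀ y ∈ uIcc (0 : ℝ) 1, HasDerivAt (fun y => π * y ^ 2 * B 1 (k ^ 2 * y ^ 2 / 4))
        (2 * π * y * B 0 (k ^ 2 * y ^ 2 / 4)) y := by
      intro y _
      have k1 : HasDerivAt (fun y : ℝ => k ^ 2 * y ^ 2 / 4) (k ^ 2 * (2 * y) / 4) y := by
        have := ((hasDerivAt_pow 2 y).const_mul (k ^ 2)).div_const 4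
        simpa using this
      have k2 := (TH259.NS.B_deriv 1 (k ^ 2 * y ^ 2 / 4)).comp y k1
      have k3 : HasDerivAt (fun y : ℝ => π * y ^ 2) (π * (2 * y)) y := by
        have := (hasDerivAt_pow 2 y).const_mul π
        simpa using this
      refine (k3.mul k2).congr_deriv ?_
      have h6 := TH259.NS.B_ode 0 (k ^ 2 * y ^ 2 / 4)
      simp only [Nat.cast_zero, zero_add, one_mul] at h6
      have h7 : B 0 (k ^ 2 * y ^ 2 / 4) = B 1 (k ^ 2 * y ^ 2 / 4) -
          k ^ 2 * y ^ 2 / 4 * B 2 (k ^ 2 * y ^ 2 / 4) := by linarith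
      rw [h7]
      simp only [Function.comp]
      ring
    have hcont : Continuous fun y : ℝ => 2 * π * y * B 0 (k ^ 2 * y ^ 2 / 4) :=
      (by fun_prop : Continuous fun y : ℝ => 2 * π * y).mul
        ((TH259.NS.B_cont 0).comp (by fun_prop))
    rw [intervalIntegral.integral_eq_sub_of_hasDerivAt hd (hcont.intervalIntegrable 0 1)]
    push_cast
    simp
  · have h1 : IntegrableOn (Function.uncurry fun θ r : ℝ =>
        (r : ℂ) * Complex.exp (((((0 : ℕ) : ℝ) * θ + (k * r) * Real.cos θ : ℝ) : ℂ) * Complex.I))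
        (uIcc (-π) π ×ˢ uIcc 0 1) :=
      hF.continuousOn.integrableOn_compact (isCompact_uIcc.prod isCompact_uIcc)
    exact h1.mono_set (prod_mono uIoc_subset_uIcc uIoc_subset_uIcc)

end Q90.SF
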