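import Mathlib
import Pool.Agent.Q90.SF.Bes2
import Pool.Agent.Y362.LR.Bouj
import Pool.Agent.Y245.SG.Main

/-! Bourget's hypothesis in the form needed here (job BES). -/

set_option autoImplicit false

open MeasureTheory Metric Set Filter Topology
open scoped Real
open TH259.NS (J B bt)

namespace Q90.SF

theorem bes (hpol : S_pol) : S_bes := by
  intro k hk h
  have hB1 : B 1 (k ^ 2 / 4) = 0 := by
    rw [ft_disc hpol] at h
    have hpi : (π : ℂ) ≠ 0 := by exact_mod_cast Real.pi_ne_zero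
    exact_mod_cast (mul_eq_zero.1 h).resolve_left hpi
  have hJ1 : J 1 k = 0 := by rw [TH259.NS.J_eq, hB1, mul_zero]
  have hJ : ∀ N : ℕ, 2 ≤ N → J N k ≠ 0 :=
    Pool.Agent.Y362.LR.bouj Pool.Agent.Y245.SG.bourget k hk hJ1
  have hpi2 : (2 : ℂ) * π ≠ 0 := mul_ne_zero two_ne_zero (by exact_mod_cast Real.pi_ne_zero)
  refine ⟨fun m hm => ?_, ?_⟩
  · rw [EE_eq]
    refine mul_ne_zero (mul_ne_zero hpi2 (pow_ne_zero _ Complex.I_ne_zero)) ?_
    exact_mod_cast hJ m hm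
  · have h3 : k * J 3 k = 4 * J 2 k := by
      have h6 := TH259.NS.B_ode 1 (k ^ 2 / 4)
      rw [hB1] at h6
      rw [TH259.NS.J_eq, TH259.NS.J_eq]
      norm_num at h6
      have h7 : k ^ 2 / 4 * B 3 (k ^ 2 / 4) = 2 * B 2 (k ^ 2 / 4) := by linarith
      have h8 : k * ((k / 2) ^ 3 * B 3 (k ^ 2 / 4)) =
          k ^ 2 / 2 * (k ^ 2 / 4 * B 3 (k ^ 2 / 4)) := by ring
      rw [h8, h7]
      ring
    have h4 : EE 2 k + k * EE' 2 k = 2 * π * (J 2 k : ℂ) := by
      rw [EE'_two, EE_eq, EE_eq, EE_eq, hJ1]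
      have h5 : (k : ℂ) * (J 3 k : ℂ) = 4 * (J 2 k : ℂ) := by exact_mod_cast h3
      have hI2 : Complex.I ^ 2 = -1 := Complex.I_sq
      have hI3 : Complex.I ^ 3 = -Complex.I := by rw [pow_succ, hI2]; ring
      rw [hI2, hI3]
      have hII : Complex.I * Complex.I = -1 := Complex.I_mul_I
      push_cast
      linear_combination (π : ℂ) * h5 - (k : ℂ) * π * (J 3 k : ℂ) * hII
    rw [h4]
    refine mul_ne_zero hpi2 ?_
    exact_mod_cast hJ 2 le_rfl

end Q90.SF
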