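import Mathlib
import Pool.Agent.Q90.SF.FinB

/-! The star-shaped domains with the radial function `a + t`. -/

set_option autoImplicit false

open MeasureTheory Metric Set Filter Topology
open scoped Real

namespace Q90.SF

lemma scl_star {s : ℝ} (hs : 0 < s) (R : ℝ → ℝ) :
    scl s (starDom R) = starDom fun θ => s * R θ := by
  ext x
  simp only [scl, starDom, Set.mem_ofPred_eq]
  have h1 : (s⁻¹ • x).arg = x.arg := by
    rw [Complex.real_smul, Complex.arg_real_mul _ (by positivity)]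
  rw [h1, norm_smul, Real.norm_eq_abs, abs_of_pos (by positivity), inv_mul_lt_iff₀ hs]

lemma exists_rep (a : ℝ → ℝ) (hap : Function.Periodic a (2 * π)) (θ : ℝ) :
    ∃ θ' ∈ Icc (-π) π, a θ = a θ' := by
  obtain ⟨θ', h1, h2⟩ := hap.exists_mem_Ico (by positivity) θ (-π)
  exact ⟨θ', ⟨h1.1, by linarith [h1.2]⟩, h2⟩

lemma exists_min (a : ℝ → ℝ) (ha : Continuous a) (hap : Function.Periodic a (2 * π)) :
    ∃ θ0, ∀ θ, a θ0 ≤ a θ := by
  obtain ⟨θ0, -, h⟩ := isCompact_Icc.exists_isMinOn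
    (nonempty_Icc.2 (by linarith [Real.pi_pos] : -π ≤ π)) ha.continuousOn
  refine ⟨θ0, fun θ => ?_⟩
  obtain ⟨θ', h1, h2⟩ := exists_rep a hap θ
  rw [h2]
  exact h h1

lemma exists_bdd (a : ℝ → ℝ) (ha : Continuous a) (hap : Function.Periodic a (2 * π)) :
    ∃ M : ℝ, 0 < M ∧ ∀ θ, |a θ| ≤ M := by
  obtain ⟨M, hM⟩ := isCompact_Icc.exists_bound_of_continuousOn (s := Icc (-π) π)
    ha.continuousOn
  refine ⟨max M 1, by positivity, fun θ => ?_⟩
  obtain ⟨θ', h1, h2⟩ := exists_rep a hap θ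
  rw [h2]
  exact (hM θ' h1).trans (le_max_left _ _)

theorem const_of_star (hscl : S_scl) (hpol : S_pol) (hbes : S_bes) (hfou : S_fou)
    (hlin : S_lin) (hlin2 : S_lin2) (a : ℝ → ℝ) (ha : Continuous a)
    (hap : Function.Periodic a (2 * π)) (κ t0 : ℝ) (hκ : 0 < κ)
    (h : ∀ t, t0 < t → ∀ ξ : ℂ, ‖ξ‖ ^ 2 * volume.real (starDom fun θ => a θ + t * 1) = κ →
      ft (starDom fun θ => a θ + t * 1) ξ = 0) : ∀ θ θ', a θ = a θ' := by
  obtain ⟨M, hM0, hM⟩ := exists_bdd a ha hap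
  set s0 : ℝ := 1 / (|t0| + 1) with hs0
  have hs0p : 0 < s0 := by positivity
  -- zeros on circles
  have hz : ∀ s : ℝ, 0 < s → s < s0 → ∀ ξ : ℂ,
      ‖ξ‖ ^ 2 * volume.real (starDom fun θ => 1 + s * a θ) = κ →
      ft (starDom fun θ => 1 + s * a θ) ξ = 0 := by
    intro s hs hss ξ hξ
    have e1 : (starDom fun θ => 1 + s * a θ) = scl s (starDom fun θ => a θ + 1 / s * 1) := by
      rw [scl_star hs]
      congr 1
      ext θ
      field_simp
      ring
    have hm : MeasurableSet (starDom fun θ => a θ + 1 / s * 1) := hpol.1 _ (by fun_prop)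
    obtain ⟨-, f2, f3, -⟩ := hscl s 1 _ hs hm
    rw [e1] at hξ ⊢
    rw [f2] at hξ
    rw [f3, h (1 / s) ?_ (s • ξ) ?_, mul_zero]
    · have h1 : |t0| + 1 < 1 / s := by
        rw [lt_div_iff₀ hs]
        rw [hs0, lt_div_iff₀ (by positivity)] at hss
        linarith
      linarith [le_abs_self t0]
    · rw [norm_smul, mul_pow, Real.norm_eq_abs, sq_abs, ← hξ]
      ring
  have key := hlin hpol a (fun s => starDom fun θ => 1 + s * a θ) κ (2 + s0 * M) s0 ha hap hκ hs0p ?_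
  · obtain ⟨k1, k2⟩ := key
    have hk : 0 < √(κ / π) := by positivity
    obtain ⟨b1, b2⟩ := hbes _ hk k1
    obtain ⟨α, β, γ, habc⟩ := hfou a ha hap fun m hm =>
      (mul_eq_zero.1 (k2 m (by omega))).resolve_right (b1 m hm)
    have h2 := hlin2 hpol α β γ κ s0 hκ hs0p (by
      intro s hs hss ξ hξ
      have := hz s hs hss ξ
      simp only [habc] at this
      exact this hξ)
    have h3 := (mul_eq_zero.1 h2).resolve_right b2
    rw [mode_two] at h3
    have h4 : ((β : ℂ) - γ * Complex.I) / 2 = 0 := by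
      have hpi : (2 : ℂ) * π ≠ 0 := by
        have := Real.pi_ne_zero
        exact mul_ne_zero two_ne_zero (by exact_mod_cast this)
      have := (mul_eq_zero.1 h3).resolve_left hpi
      exact pow_eq_zero_iff (two_ne_zero) |>.1 this
    have h5 : (β : ℂ) - γ * Complex.I = 0 := by
      have := (div_eq_zero_iff.1 h4).resolve_right two_ne_zero
      exact this
    have hβ : β = 0 := by simpa using congrArg Complex.re h5
    have hγ : γ = 0 := by simpa using congrArg Complex.im h5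
    intro θ θ'
    rw [habc, habc, hβ, hγ]
    ring
  · intro s hs hss
    refine ⟨hpol.1 _ (by fun_prop), ?_, ?_, hz s hs hss⟩
    · intro x hx
      have hx' : ‖x‖ < 1 + s * a x.arg := hx
      rw [mem_ball_zero_iff]
      have h1 : s * a x.arg ≤ s0 * M := by
        have h2 := (abs_le.1 (hM x.arg)).2
        have h3 : s * a x.arg ≤ s * M := mul_le_mul_of_nonneg_left h2 hs.le
        have h4 : s * M ≤ s0 * M := mul_le_mul_of_nonneg_right hss.le hM0.le
        linarith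
      linarith
    · rw [symmDiff_self]
      simp only [Set.bot_eq_empty, measureReal_empty]
      positivity

/-- the interval of the admissible `t` -/
lemma adm_eq (a : ℝ → ℝ) {θ0 : ℝ} (h0 : ∀ θ, a θ0 ≤ a θ) (t : ℝ) :
    (∀ θ, 0 < a θ + t) ↔ t ∈ Ioi (-(a θ0)) := by
  constructor
  · intro h
    have := h θ0
    rw [mem_Ioi]
    linarith
  · intro h θ
    rw [mem_Ioi] at h
    have := h0 θ
    linarith

theorem star_par' (hzop : S_zop) (hpol : S_pol) (hsfm : S_sfm) (hspr : S_spr) (hscl : S_scl)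
    (hbes : S_bes) (hfou : S_fou) (hlin : S_lin) (hlin2 : S_lin2) (a : ℝ → ℝ)
    (ha : Continuous a) (hap : Function.Periodic a (2 * π)) (hne : ∃ θ θ', a θ ≠ a θ') :
    {t : ℝ | (∀ θ, 0 < a θ + t) ∧ ∃ lam : ℝ, 0 < lam ∧
      ∃ U : ℂ → ℝ, Pot (starDom fun θ => a θ + t) lam U}.Countable := by
  obtain ⟨θ0, h0⟩ := exists_min a ha hap
  by_contra hcon
  have hsub : {t : ℝ | (∀ θ, 0 < a θ + t) ∧ ∃ lam : ℝ, 0 < lam ∧
      ∃ U : ℂ → ℝ, Pot (starDom fun θ => a θ + t) lam U} ⊆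
      Ex (Ioi (-(a θ0))) fun t => starDom fun θ => a θ + t * 1 := by
    rintro t ⟨ht, lam, hlam, U, hU⟩
    refine ⟨(adm_eq a h0 t).1 ht, lam, hlam, U, ?_⟩
    simpa only [mul_one] using hU
  obtain ⟨κ, hκ, h⟩ := star_law' hzop hpol hsfm hspr a (fun _ => 1) (Ioi (-(a θ0))) ha
    continuous_const hap (fun _ => rfl) isOpen_Ioi isPreconnected_Ioi
    (fun t ht θ => by
      rw [mul_one]
      exact (adm_eq a h0 t).2 ht θ) (fun hc => hcon (hc.mono hsub))
  obtain ⟨θ, θ', hθ⟩ := hne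
  exact hθ (const_of_star hscl hpol hbes hfou hlin hlin2 a ha hap κ (-(a θ0)) hκ
    (fun t ht => h t ht) θ θ')

lemma bdd_star {R : ℝ → ℝ} (hR : Continuous R) (hp : Function.Periodic R (2 * π)) :
    Bornology.IsBounded (starDom R) := by
  obtain ⟨M, -, hM⟩ := exists_bdd R hR hp
  refine (isBounded_ball (x := (0 : ℂ)) (r := M + 1)).subset fun x hx => ?_
  have hx' : ‖x‖ < R x.arg := hx
  rw [mem_ball_zero_iff]
  linarith [(abs_le.1 (hM x.arg)).2]

theorem star_par (hpot : S_pot) (hpol : S_pol) {a : ℝ → ℝ}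
    (h : {t : ℝ | (∀ θ, 0 < a θ + t) ∧ ∃ lam : ℝ, 0 < lam ∧
      ∃ U : ℂ → ℝ, Pot (starDom fun θ => a θ + t) lam U}.Countable)
    (ha : Continuous a) (hap : Function.Periodic a (2 * π)) :
    {t : ℝ | (∀ θ, 0 < a θ + t) ∧ ∃ lam : ℝ, 0 < lam ∧
      Solvable (starDom fun θ => a θ + t) lam}.Countable := by
  refine h.mono ?_
  rintro t ⟨ht, lam, hlam, hs⟩
  have hc : Continuous fun θ => a θ + t := by fun_prop
  have hp : Function.Periodic (fun θ => a θ + t) (2 * π) := fun θ => by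
    simp only [hap θ]
  exact ⟨ht, lam, hlam, hpot _ lam (bdd_star hc hp) (hpol.1 _ hc) hlam hs⟩

end Q90.SF
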