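import Mathlib
import Pool.Agent.Q90.SF.FinC

/-! Generic star-shaped domains. -/

set_option autoImplicit false

open MeasureTheory Metric Set Filter Topology
open scoped Real

namespace Q90.SF

/-- `V` is a normed space of continuous `2π`-periodic functions: `ev v` is the function `v`, and
the norm of `V` dominates the supremum norm. -/
structure FunSpace (V : Type) [NormedAddCommGroup V] [NormedSpace ℝ V]
    (ev : V →ₗ[ℝ] (ℝ → ℝ)) : Prop where
  cont : ∀ v, Continuous (ev v)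
  per : ∀ v, Function.Periodic (ev v) (2 * π)
  bd : ∃ C : ℝ, ∀ v θ, |ev v θ| ≤ C * ‖v‖
  one : ∃ e : V, ∀ θ, ev e θ = 1
  nonconst : ∃ w : V, ∃ θ θ' : ℝ, ev w θ ≠ ev w θ'

/-- the closed pieces -/
def FF {V : Type} [NormedAddCommGroup V] [NormedSpace ℝ V] (ev : V →ₗ[ℝ] (ℝ → ℝ)) (n : ℕ) :
    Set V :=
  {v | (∀ θ, 1 / ((n : ℝ) + 1) ≤ ev v θ) ∧ ∃ lam : ℝ, 1 / ((n : ℝ) + 1) ≤ lam ∧ lam ≤ n + 1 ∧
    ∃ U : ℂ → ℝ, Pot (starDom (ev v)) lam U}

variable {V : Type} [NormedAddCommGroup V] [NormedSpace ℝ V] {ev : V →ₗ[ℝ] (ℝ → ℝ)}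

lemma FF_closed (hcls : S_cls) (hpol : S_pol) (h : FunSpace V ev) (n : ℕ) :
    IsClosed (FF ev n) := by
  obtain ⟨C, hC⟩ := h.bd
  have hn : (0 : ℝ) < 1 / ((n : ℝ) + 1) := by positivity
  refine isSeqClosed_iff_isClosed.1 ?_
  intro x v hx hxv
  choose h1 lam h2 h3 h4 using hx
  have hmem : ∀ k, lam k ∈ Icc (1 / ((n : ℝ) + 1)) (n + 1) := fun k => ⟨h2 k, h3 k⟩
  obtain ⟨lam0, hl0, φ, hφ, hlim⟩ := isCompact_Icc.tendsto_subseq hmem
  have hunif : TendstoUniformly (fun k => ev (x (φ k))) (ev v) atTop := by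
    rw [Metric.tendstoUniformly_iff]
    intro ε hε
    have h5 : Tendsto (fun k => C * ‖x (φ k) - v‖) atTop (𝓝 0) := by
      have h6 : Tendsto (fun k => ‖x (φ k) - v‖) atTop (𝓝 0) :=
        tendsto_iff_norm_sub_tendsto_zero.1 (hxv.comp hφ.tendsto_atTop)
      simpa using h6.const_mul C
    filter_upwards [h5.eventually_lt_const hε] with k hk θ
    rw [dist_comm, Real.dist_eq]
    have : ev (x (φ k)) θ - ev v θ = ev (x (φ k) - v) θ := by
      rw [map_sub]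
      rfl
    rw [this]
    exact (hC _ θ).trans_lt hk
  have hge : ∀ θ, 1 / ((n : ℝ) + 1) ≤ ev v θ := by
    intro θ
    have h5 : Tendsto (fun k => ev (x (φ k)) θ) atTop (𝓝 (ev v θ)) :=
      hunif.tendsto_at θ
    exact ge_of_tendsto' h5 fun k => h1 _ θ
  refine ⟨hge, lam0, hl0.1, hl0.2, ?_⟩
  exact hcls hpol (fun k => ev (x (φ k))) (ev v) (fun k => lam (φ k)) lam0 (fun k => h.cont _)
    (h.cont v) (fun k => h.per _) (h.per v) (fun k θ => hn.trans_le (h1 _ θ))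
    (fun θ => hn.trans_le (hge θ)) hunif hlim (fun k => hn.trans_le (h2 _)) (hn.trans_le hl0.1)
    (fun k => h4 _)

lemma FF_interior (hpar : ∀ a : ℝ → ℝ, Continuous a → Function.Periodic a (2 * π) →
      (∃ θ θ', a θ ≠ a θ') → {t : ℝ | (∀ θ, 0 < a θ + t) ∧ ∃ lam : ℝ, 0 < lam ∧
      ∃ U : ℂ → ℝ, Pot (starDom fun θ => a θ + t) lam U}.Countable)
    (h : FunSpace V ev) (n : ℕ) : interior (FF ev n) = ∅ := by
  have hn : (0 : ℝ) < 1 / ((n : ℝ) + 1) := by positivity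
  rw [Set.eq_empty_iff_forall_notMem]
  intro v hv
  obtain ⟨e, he⟩ := h.one
  obtain ⟨w, θ, θ', hw⟩ := h.nonconst
  -- a nonconstant function in the interior
  obtain ⟨v', hv', hne⟩ : ∃ v' ∈ interior (FF ev n), ∃ θ θ', ev v' θ ≠ ev v' θ' := by
    by_cases hc : ev v θ = ev v θ'
    · have hcont : Continuous fun δ : ℝ => v + δ • w := by fun_prop
      have hnh : (fun δ : ℝ => v + δ • w) ⁻¹' interior (FF ev n) ∈ 𝓝 (0 : ℝ) := by
        refine hcont.continuousAt.preimage_mem_nhds ?_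
        simpa using isOpen_interior.mem_nhds hv
      obtain ⟨ε, hε, hb⟩ := Metric.mem_nhds_iff.1 hnh
      have h1 : (ε / 2 : ℝ) ∈ ball (0 : ℝ) ε := by
        rw [mem_ball_zero_iff, Real.norm_eq_abs, abs_of_pos (by positivity)]
        linarith
      refine ⟨v + (ε / 2) • w, hb h1, θ, θ', ?_⟩
      rw [map_add, map_smul]
      simp only [Pi.add_apply, Pi.smul_apply, smul_eq_mul, hc]
      intro h2
      apply hw
      have h3 := add_left_cancel h2
      exact mul_left_cancel₀ (by positivity) h3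
    · exact ⟨v, hv, θ, θ', hc⟩
  have hcont : Continuous fun t : ℝ => v' + t • e := by fun_prop
  have hnh : (fun t : ℝ => v' + t • e) ⁻¹' interior (FF ev n) ∈ 𝓝 (0 : ℝ) := by
    refine hcont.continuousAt.preimage_mem_nhds ?_
    simpa using isOpen_interior.mem_nhds hv'
  obtain ⟨ε, hε, hb⟩ := Metric.mem_nhds_iff.1 hnh
  have hcount := hpar (ev v') (h.cont v') (h.per v') hne
  have hsub : ball (0 : ℝ) ε ⊆ {t : ℝ | (∀ θ, 0 < ev v' θ + t) ∧ ∃ lam : ℝ, 0 < lam ∧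
      ∃ U : ℂ → ℝ, Pot (starDom fun θ => ev v' θ + t) lam U} := by
    intro t ht
    obtain ⟨k1, lam, k2, -, U, hU⟩ := interior_subset (hb ht)
    have hev : ev (v' + t • e) = fun θ => ev v' θ + t := by
      ext θ
      rw [map_add, map_smul]
      simp only [Pi.add_apply, Pi.smul_apply, smul_eq_mul, he, mul_one]
    rw [hev] at k1 hU
    exact ⟨fun θ => hn.trans_le (k1 θ), lam, hn.trans_le k2, U, hU⟩
  have h2 : (ball (0 : ℝ) ε).Countable := hcount.mono hsub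
  have h3 : volume (ball (0 : ℝ) ε) = 0 := h2.measure_zero volume
  rw [Real.volume_ball] at h3
  simp only [ENNReal.ofReal_eq_zero] at h3
  linarith

theorem generic (hcls : S_cls) (hpol : S_pol) (hpot : S_pot)
    (hpar : ∀ a : ℝ → ℝ, Continuous a → Function.Periodic a (2 * π) →
      (∃ θ θ', a θ ≠ a θ') → {t : ℝ | (∀ θ, 0 < a θ + t) ∧ ∃ lam : ℝ, 0 < lam ∧
      ∃ U : ℂ → ℝ, Pot (starDom fun θ => a θ + t) lam U}.Countable)
    (h : FunSpace V ev) :
    IsMeagre {v : V | (∀ θ, 0 < ev v θ) ∧ ∃ lam : ℝ, 0 < lam ∧ Solvable (starDom (ev v)) lam} := by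
  have hsub : {v : V | (∀ θ, 0 < ev v θ) ∧ ∃ lam : ℝ, 0 < lam ∧ Solvable (starDom (ev v)) lam} ⊆
      ⋃ n, FF ev n := by
    rintro v ⟨hpos, lam, hlam, hs⟩
    obtain ⟨M, -, hM⟩ := exists_bdd (ev v) (h.cont v) (h.per v)
    have hb : Bornology.IsBounded (starDom (ev v)) := by
      refine (isBounded_ball (x := (0 : ℂ)) (r := M + 1)).subset fun x hx => ?_
      have hx' : ‖x‖ < ev v x.arg := hx
      rw [mem_ball_zero_iff]
      linarith [(abs_le.1 (hM x.arg)).2]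
    obtain ⟨U, hU⟩ := hpot _ lam hb (hpol.1 _ (h.cont v)) hlam hs
    obtain ⟨θ0, h0⟩ := exists_min (ev v) (h.cont v) (h.per v)
    obtain ⟨n, hn⟩ := exists_nat_gt (max (max lam (1 / lam)) (1 / ev v θ0))
    rw [max_lt_iff, max_lt_iff] at hn
    obtain ⟨⟨n1, n2⟩, n3⟩ := hn
    have hp0 := hpos θ0
    have aux : ∀ y : ℝ, 0 < y → 1 / y < n → 1 / ((n : ℝ) + 1) ≤ y := by
      intro y hy hyn
      rw [div_lt_iff₀ hy] at hyn
      rw [div_le_iff₀ (by positivity)]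
      nlinarith
    refine mem_iUnion.2 ⟨n, fun θ => (aux _ hp0 n3).trans (h0 θ), lam, aux _ hlam n2, ?_, U, hU⟩
    linarith
  refine IsMeagre.mono hsub ?_
  refine isMeagre_iUnion fun n => ?_
  refine IsNowhereDense.isMeagre ?_
  rw [IsNowhereDense, (FF_closed hcls hpol h n).closure_eq]
  exact FF_interior hpar h n

end Q90.SF
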